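import Pool.Agent.Lib.PT4.Defs
import Pool.Agent.Lib.PL4.Cut

/-!
Module PT4.AnaN: the four quadrants of a double T cover the plane up to null sets.

The sets `Qr i θ x (ht s s' i)` are open and pairwise disjoint, the complement of their union is contained in the three lines
`re w = x`, `im w = s`, `im w = s'`, `w = exp (-θ I) z`, null sets (`ContMAux.null_re`, `null_im` and the rotation as in the
proof of `cont_denr` in DK4.ContE).  The integrand is integrable (`uc_adm`, `Adm.integrable_en`, `Adm.integrable_sq`), so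
`integral_union` / `integral_finset_biUnion` / `setIntegral_congr_set`.
-/

open MeasureTheory Set Filter Topology
open scoped ContDiff

namespace PT4

open DK4 PL4

namespace AnaNAux

theorem meas_Qr (i : Fin 4) (θ x y : ℝ) : MeasurableSet (Qr i θ x y) := by
  have h1 : IsOpen (Qd x y (sx i) (sy i)) := by
    have k1 : IsOpen {z : ℂ | 0 < sx i * (z.re - x)} := isOpen_lt continuous_const (by fun_prop)
    have k2 : IsOpen {z : ℂ | 0 < sy i * (z.im - y)} := isOpen_lt continuous_const (by fun_prop)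
    exact k1.inter k2
  have h2 : Continuous fun z : ℂ => Complex.exp (-(θ : ℂ) * Complex.I) * z := by fun_prop
  exact (h1.preimage h2).measurableSet

theorem ae_off (θ x s s' : ℝ) : ∀ᵐ z : ℂ,
    (Complex.exp (-(θ : ℂ) * Complex.I) * z).re ≠ x ∧
    (Complex.exp (-(θ : ℂ) * Complex.I) * z).im ≠ s ∧
    (Complex.exp (-(θ : ℂ) * Complex.I) * z).im ≠ s' := by
  have hmp : MeasurePreserving (rotation (Circle.exp (-θ))) volume volume :=
    (rotation (Circle.exp (-θ))).measurePreserving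
  have hrot : ∀ z : ℂ, rotation (Circle.exp (-θ)) z =
      Complex.exp (-(θ : ℂ) * Complex.I) * z := by
    intro z
    rw [rotation_apply, Circle.coe_exp]
    push_cast
    rfl
  have n1 := hmp.quasiMeasurePreserving.ae (ContMAux.null_re x)
  have n2 := hmp.quasiMeasurePreserving.ae (ContMAux.null_im s)
  have n3 := hmp.quasiMeasurePreserving.ae (ContMAux.null_im s')
  filter_upwards [n1, n2, n3] with z h1 h2 h3
  rw [hrot] at h1 h2 h3
  exact ⟨h1, h2, h3⟩

theorem sum_ind {θ x s s' : ℝ} (F : ℂ → ℝ) {z : ℂ}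
    (h1 : (Complex.exp (-(θ : ℂ) * Complex.I) * z).re ≠ x)
    (h2 : (Complex.exp (-(θ : ℂ) * Complex.I) * z).im ≠ s)
    (h3 : (Complex.exp (-(θ : ℂ) * Complex.I) * z).im ≠ s') :
    ∑ i, (Qr i θ x (ht s s' i)).indicator F z = F z := by
  have hm : ∀ i, z ∈ Qr i θ x (ht s s' i) ↔
      0 < sx i * ((Complex.exp (-(θ : ℂ) * Complex.I) * z).re - x) ∧
      0 < sy i * ((Complex.exp (-(θ : ℂ) * Complex.I) * z).im - ht s s' i) := fun i => Iff.rfl
  generalize (Complex.exp (-(θ : ℂ) * Complex.I) * z) = w at h1 h2 h3 hm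
  have m0 : z ∈ Qr 0 θ x (ht s s' 0) ↔ x < w.re ∧ s < w.im := by
    rw [hm]
    simp [sx, sy, ht]
  have m1 : z ∈ Qr 1 θ x (ht s s' 1) ↔ w.re < x ∧ s' < w.im := by
    rw [hm]
    simp [sx, sy, ht]
  have m2 : z ∈ Qr 2 θ x (ht s s' 2) ↔ w.re < x ∧ w.im < s' := by
    rw [hm]
    simp [sx, sy, ht]
  have m3 : z ∈ Qr 3 θ x (ht s s' 3) ↔ x < w.re ∧ w.im < s := by
    rw [hm]
    simp [sx, sy, ht]
  rw [Fin.sum_univ_four]
  rcases lt_or_gt_of_ne h1 with ha | ha
  · have e0 : z ∉ Qr 0 θ x (ht s s' 0) := fun h => lt_asymm ha (m0.1 h).1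
    have e3 : z ∉ Qr 3 θ x (ht s s' 3) := fun h => lt_asymm ha (m3.1 h).1
    rcases lt_or_gt_of_ne h3 with hb | hb
    · have e1 : z ∉ Qr 1 θ x (ht s s' 1) := fun h => lt_asymm hb (m1.1 h).2
      rw [indicator_of_notMem e0, indicator_of_notMem e1, indicator_of_mem (m2.2 ⟨ha, hb⟩),
        indicator_of_notMem e3]
      ring
    · have e2 : z ∉ Qr 2 θ x (ht s s' 2) := fun h => lt_asymm hb (m2.1 h).2
      rw [indicator_of_notMem e0, indicator_of_mem (m1.2 ⟨ha, hb⟩), indicator_of_notMem e2,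
        indicator_of_notMem e3]
      ring
  · have e1 : z ∉ Qr 1 θ x (ht s s' 1) := fun h => lt_asymm ha (m1.1 h).1
    have e2 : z ∉ Qr 2 θ x (ht s s' 2) := fun h => lt_asymm ha (m2.1 h).1
    rcases lt_or_gt_of_ne h2 with hb | hb
    · have e0 : z ∉ Qr 0 θ x (ht s s' 0) := fun h => lt_asymm hb (m0.1 h).2
      rw [indicator_of_notMem e0, indicator_of_notMem e1, indicator_of_notMem e2,
        indicator_of_mem (m3.2 ⟨ha, hb⟩)]
      ring
    · have e3 : z ∉ Qr 3 θ x (ht s s' 3) := fun h => lt_asymm hb (m3.1 h).2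
      rw [indicator_of_mem (m0.2 ⟨ha, hb⟩), indicator_of_notMem e1, indicator_of_notMem e2,
        indicator_of_notMem e3]
      ring

end AnaNAux

open AnaNAux

theorem pe_neg {v : Fin 4 → ℂ → ℝ} (hv : ∀ j, ContDiff ℝ ∞ (v j))
    (hvc : ∀ j, HasCompactSupport (v j)) (Λ : ℝ) (θ x s s' : ℝ) (a : Fin 4 → ℝ) :
    ∑ i, en Λ (Qr i θ x (ht s s' i)) (uc v a) = en Λ univ (uc v a) := by
  have hint : Integrable fun z => ‖fderiv ℝ (uc v a) z‖ ^ 2 - Λ * uc v a z ^ 2 := by
    have e : (fun z => ‖fderiv ℝ (uc v a) z‖ ^ 2 - Λ * uc v a z ^ 2) =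
      fun z => ∑ i, ∑ j, a i * CutAux.bd Λ v i j z * a j := funext fun z => CutAux.dens_eq hv a z
    rw [e]
    exact integrable_finsetSum _ fun i _ => integrable_finsetSum _ fun j _ =>
      ((CutAux.bd_int hv hvc i j).const_mul _).mul_const _
  unfold en
  have e1 : ∀ i, ∫ z in Qr i θ x (ht s s' i), (‖fderiv ℝ (uc v a) z‖ ^ 2 - Λ * uc v a z ^ 2) =
      ∫ z, (Qr i θ x (ht s s' i)).indicator
        (fun z => ‖fderiv ℝ (uc v a) z‖ ^ 2 - Λ * uc v a z ^ 2) z := fun i =>
    (integral_indicator (meas_Qr i θ x _)).symm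
  simp only [e1]
  rw [← integral_finsetSum _ fun i _ => hint.indicator (meas_Qr i θ x _), Measure.restrict_univ]
  refine integral_congr_ae ?_
  filter_upwards [ae_off θ x s s'] with z hz
  exact sum_ind _ hz.1 hz.2.1 hz.2.2

end PT4
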