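import Pool.Agent.Lib.PT4.Defs
import Pool.Agent.Lib.PL4.Cut

/-!
Module PT4.AnaQ: the sum of the energies of the positive and negative part is a quadratic form.

`pe_add`: `uc v (-a) = - uc v a`; the density of the positive part plus the density of the negative part is the density of
`uc v a` almost everywhere (where `uc v a = 0` use `Adm.ae_fderiv_zero`, see `q_split` in DK4.Loc; `ContEAux.den_eq`).
`pe_quad`: `PL4.CutAux.en_eq` (the energy is `∑ i j, a i * a j * be i j` with a symmetric matrix `be`, `be_symm`);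
`β = Matrix.toLinearMap₂'` or `LinearMap.mk₂`.
-/

open MeasureTheory Set Filter Topology
open scoped ContDiff

namespace PT4

open DK4 PL4

namespace AnaQAux

theorem den_split {u : ℂ → ℝ} (hu : Adm u) (Λ : ℝ) (z : ℂ)
    (hz : u z = 0 → fderiv ℝ u z = 0) :
    den Λ (fun z => max (u z) 0) z + den Λ (fun z => max (-u z) 0) z =
      ‖fderiv ℝ u z‖ ^ 2 - Λ * u z ^ 2 := by
  have e : fderiv ℝ (fun z => -u z) z = -fderiv ℝ u z := fderiv_fun_neg
  unfold den
  rw [fderiv_pos hu.continuous, fderiv_pos hu.neg.continuous]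
  beta_reduce
  rcases lt_trichotomy (u z) 0 with h | h | h
  · rw [indicator_of_notMem (s := {z | 0 < u z}) (not_lt.2 h.le),
      indicator_of_mem (s := {z | 0 < -u z}) (neg_pos.2 h), e, norm_zero, norm_neg,
      max_eq_right h.le, max_eq_left (neg_pos.2 h).le]
    ring
  · rw [indicator_of_notMem (s := {z | 0 < u z}) (not_lt.2 h.le),
      indicator_of_notMem (s := {z | 0 < -u z}) (by simp [h]), hz h, h]
    simp [h]
  · rw [indicator_of_mem (s := {z | 0 < u z}) h,
      indicator_of_notMem (s := {z | 0 < -u z}) (not_lt.2 (neg_nonpos.2 h.le)), norm_zero,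
      max_eq_left h.le, max_eq_right (neg_nonpos.2 h.le)]
    ring

theorem uc_neg {n : ℕ} (v : Fin n → ℂ → ℝ) (a : Fin n → ℝ) (z : ℂ) :
    uc v (-a) z = -uc v a z := by
  unfold uc
  rw [← Finset.sum_neg_distrib]
  refine Finset.sum_congr rfl fun i _ => ?_
  rw [Pi.neg_apply, neg_mul]

end AnaQAux

/-- positive and negative part -/
theorem pe_add {v : Fin 4 → ℂ → ℝ} (hv : ∀ j, ContDiff ℝ ∞ (v j))
    (hvc : ∀ j, HasCompactSupport (v j)) (Λ : ℝ) (i : Fin 4) (θ x y : ℝ) (a : Fin 4 → ℝ) :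
    PE Λ v i θ x y a + PE Λ v i θ x y (-a) = en Λ (Qr i θ x y) (uc v a) := by
  have hu : Adm (uc v a) := uc_adm hv hvc a
  unfold PE en
  simp only [AnaQAux.uc_neg]
  rw [← integral_add (den_int hu.pos).integrableOn (den_int hu.neg.pos).integrableOn]
  refine integral_congr_ae ?_
  filter_upwards [ae_restrict_of_ae hu.ae_fderiv_zero] with z hz
  exact AnaQAux.den_split hu Λ z hz

theorem pe_quad {v : Fin 4 → ℂ → ℝ} (hv : ∀ j, ContDiff ℝ ∞ (v j))
    (hvc : ∀ j, HasCompactSupport (v j)) (Λ : ℝ) (i : Fin 4) (θ x y : ℝ) :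
    ∃ β : (Fin 4 → ℝ) →ₗ[ℝ] (Fin 4 → ℝ) →ₗ[ℝ] ℝ,
      (∀ a b, β a b = β b a) ∧ ∀ a, en Λ (Qr i θ x y) (uc v a) = β a a := by
  refine ⟨Matrix.toBilin' (Matrix.of fun i' j' => CutAux.be Λ v (Qr i θ x y) i' j'),
    fun a b => ?_, fun a => ?_⟩
  · rw [Matrix.toBilin'_apply, Matrix.toBilin'_apply, Finset.sum_comm]
    refine Finset.sum_congr rfl fun i _ => Finset.sum_congr rfl fun j _ => ?_
    rw [Matrix.of_apply, Matrix.of_apply, CutAux.be_symm]
    ring
  · rw [Matrix.toBilin'_apply, CutAux.en_eq hv hvc]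
    rfl

end PT4
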