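import Pool.Agent.Lib.PT4.Defs

/-!
Module PT4.AnaR: rotation by a right angle and supports.

* `pe_rot`: `Qr i (θ + π/2) x y = Qr (i+1) θ (-y) x`: `exp (-(θ + π/2) I) z = -I * (exp (-θ I) z)`, `re (-I w) = im w`,
  `im (-I w) = - re w`, `fin_cases i`.
* `pe_supp`: on the quadrant `‖z‖ > R`, so `v j = 0` near `z`, the density is `0` there and the integral is `0`.
-/

open MeasureTheory Set Filter Topology
open scoped ContDiff

namespace PT4

open DK4 PL4

namespace AnaRAux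

theorem exp_rot (θ : ℝ) (z : ℂ) :
    Complex.exp (-((θ + Real.pi / 2 : ℝ) : ℂ) * Complex.I) * z =
      -Complex.I * (Complex.exp (-(θ : ℂ) * Complex.I) * z) := by
  have h : -((θ + Real.pi / 2 : ℝ) : ℂ) * Complex.I =
      -(θ : ℂ) * Complex.I + -((Real.pi / 2 : ℝ) : ℂ) * Complex.I := by
    push_cast
    ring
  rw [h, Complex.exp_add]
  have h2 : Complex.exp (-((Real.pi / 2 : ℝ) : ℂ) * Complex.I) = -Complex.I := by
    rw [← Complex.ofReal_neg, Complex.exp_mul_I, ← Complex.ofReal_cos, ← Complex.ofReal_sin,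
      Real.cos_neg, Real.sin_neg, Real.cos_pi_div_two, Real.sin_pi_div_two]
    simp
  rw [h2]
  ring

theorem Qr_rot (i : Fin 4) (θ x y : ℝ) : Qr i (θ + Real.pi / 2) x y = Qr (i + 1) θ (-y) x := by
  ext z
  simp only [Qr, Qd, Set.mem_setOf_eq]
  rw [exp_rot]
  generalize Complex.exp (-(θ : ℂ) * Complex.I) * z = w
  have h1 : (-Complex.I * w).re = w.im := by simp
  have h2 : (-Complex.I * w).im = -w.re := by simp
  rw [h1, h2]
  have hx : sx (i + 1) = -sy i := by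
    fin_cases i <;> simp [sx, sy]
  have hy : sy (i + 1) = sx i := by
    fin_cases i <;> simp [sx, sy]
  rw [hx, hy]
  constructor
  · rintro ⟨ha, hb⟩
    exact ⟨by nlinarith, ha⟩
  · rintro ⟨ha, hb⟩
    exact ⟨hb, by nlinarith⟩

theorem norm_rotate (θ : ℝ) (z : ℂ) : ‖Complex.exp (-(θ : ℂ) * Complex.I) * z‖ = ‖z‖ := by
  rw [norm_mul]
  have : ‖Complex.exp (-(θ : ℂ) * Complex.I)‖ = 1 := by
    rw [← Complex.ofReal_neg]
    exact Complex.norm_exp_ofReal_mul_I (-θ)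
  rw [this, one_mul]

theorem abs_sx (i : Fin 4) : |sx i| = 1 := by
  fin_cases i <;> simp [sx]

theorem abs_sy (i : Fin 4) : |sy i| = 1 := by
  fin_cases i <;> simp [sy]

theorem norm_gt {R : ℝ} (i : Fin 4) (θ x y : ℝ) (h : R ≤ sx i * x ∨ R ≤ sy i * y) {z : ℂ}
    (hz : z ∈ Qr i θ x y) : R < ‖z‖ := by
  rw [← norm_rotate θ z]
  simp only [Qr, Qd, Set.mem_setOf_eq] at hz
  generalize Complex.exp (-(θ : ℂ) * Complex.I) * z = w at hz ⊢
  rcases h with h | h
  · have h1 : sx i * w.re ≤ |w.re| := by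
      calc sx i * w.re ≤ |sx i * w.re| := le_abs_self _
        _ = |w.re| := by rw [abs_mul, abs_sx, one_mul]
    have h2 : |w.re| ≤ ‖w‖ := Complex.abs_re_le_norm w
    have h3 : sx i * (w.re - x) = sx i * w.re - sx i * x := by ring
    have h4 := hz.1
    rw [h3] at h4
    linarith
  · have h1 : sy i * w.im ≤ |w.im| := by
      calc sy i * w.im ≤ |sy i * w.im| := le_abs_self _
        _ = |w.im| := by rw [abs_mul, abs_sy, one_mul]
    have h2 : |w.im| ≤ ‖w‖ := Complex.abs_im_le_norm w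
    have h3 : sy i * (w.im - y) = sy i * w.im - sy i * y := by ring
    have h4 := hz.2
    rw [h3] at h4
    linarith

theorem den_zero {v : Fin 4 → ℂ → ℝ} {R : ℝ} (hR : ∀ j z, R ≤ ‖z‖ → v j z = 0) (Λ : ℝ)
    (a : Fin 4 → ℝ) {z : ℂ} (hz : R < ‖z‖) : den Λ (fun z => max (uc v a z) 0) z = 0 := by
  have hev : (fun z => max (uc v a z) 0) =ᶠ[𝓝 z] fun _ => (0 : ℝ) := by
    have : {w : ℂ | R < ‖w‖} ∈ 𝓝 z :=
      (isOpen_lt continuous_const continuous_norm).mem_nhds hz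
    filter_upwards [this] with w hw
    have : uc v a w = 0 := by
      unfold uc
      exact Finset.sum_eq_zero fun j _ => by rw [hR j w (le_of_lt hw), mul_zero]
    simp [this]
  have h0 : (fun z => max (uc v a z) 0) z = 0 := hev.eq_of_nhds
  unfold den
  rw [hev.fderiv_eq, h0]
  simp

end AnaRAux

theorem pe_rot {v : Fin 4 → ℂ → ℝ} (Λ : ℝ) (i : Fin 4) (θ x y : ℝ) (a : Fin 4 → ℝ) :
    PE Λ v i (θ + Real.pi / 2) x y a = PE Λ v (i + 1) θ (-y) x a := by
  unfold PE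
  rw [AnaRAux.Qr_rot]

theorem pe_supp {v : Fin 4 → ℂ → ℝ} {R : ℝ} (hR : ∀ j z, R ≤ ‖z‖ → v j z = 0) (Λ : ℝ)
    (i : Fin 4) (θ x y : ℝ) (a : Fin 4 → ℝ) (h : R ≤ sx i * x ∨ R ≤ sy i * y) :
    PE Λ v i θ x y a = 0 := by
  unfold PE
  exact setIntegral_eq_zero_of_forall_eq_zero fun z hz =>
    AnaRAux.den_zero hR Λ a (AnaRAux.norm_gt i θ x y h hz)

end PT4
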