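import Pool.Agent.Lib.PT4.AnaC
import Pool.Agent.Lib.PT4.AnaQ
import Pool.Agent.Lib.PT4.AnaN
import Pool.Agent.Lib.PT4.AnaR

/-!
Module PT4.Ana: the family `PE Λ v` has the properties `Fam`.

`R > 0` with all `tsupport (v j)` in the open ball of radius `R` (compact sets are bounded).  `cont`: `pe_cont`; `quad`: `pe_add` and
`pe_quad`; `neg`: `pe_add` and `pe_neg`; `rot`: `pe_rot`; `right`, `left`, `up`, `down`: `pe_supp` (`sx`, `sy` are `±1`).
-/

open MeasureTheory Set Filter Topology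
open scoped ContDiff

namespace PT4

open DK4 PL4

/-- the family -/
theorem fam {Ω : Set ℂ} {Λ : ℝ} {v : Fin 4 → ℂ → ℝ} (hv : ∀ j, IsTest Ω (v j))
    (hneg : ∀ a : Fin 4 → ℝ, a ≠ 0 → en Λ univ (uc v a) < 0) :
    ∃ R : ℝ, 0 < R ∧ Fam (PE Λ v) R := by
  have hc : ∀ j, ContDiff ℝ ∞ (v j) := fun j => (hv j).1
  have hk : ∀ j, HasCompactSupport (v j) := fun j => (hv j).2.1
  have hK : IsCompact (⋃ j, tsupport (v j)) := isCompact_iUnion fun j => hk j
  obtain ⟨R, hR0, hRs⟩ := hK.isBounded.subset_ball_lt 0 (0 : ℂ)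
  have hR : ∀ j z, R ≤ ‖z‖ → v j z = 0 := by
    intro j z hz
    by_contra hne
    have h1 : z ∈ Metric.ball (0 : ℂ) R :=
      hRs (mem_iUnion.2 ⟨j, subset_tsupport (v j) hne⟩)
    rw [mem_ball_zero_iff] at h1
    exact absurd hz (not_le.2 h1)
  refine ⟨R, hR0, ?_⟩
  constructor
  · exact fun i => pe_cont hc hk Λ i
  · intro i θ x y
    obtain ⟨β, hs, hβ⟩ := pe_quad hc hk Λ i θ x y
    exact ⟨β, hs, fun a => by rw [pe_add hc hk, hβ]⟩
  · intro θ x s s' a ha
    have h1 : ∑ i, (PE Λ v i θ x (ht s s' i) a + PE Λ v i θ x (ht s s' i) (-a)) =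
        en Λ univ (uc v a) := by
      rw [← pe_neg hc hk Λ θ x s s' a]
      exact Finset.sum_congr rfl fun i _ => pe_add hc hk Λ i θ x (ht s s' i) a
    rw [h1]
    exact hneg a ha
  · exact fun i θ x y a => pe_rot Λ i θ x y a
  · intro θ x y a h
    exact ⟨pe_supp hR Λ 0 θ x y a (Or.inl (by simpa [sx] using h)),
      pe_supp hR Λ 3 θ x y a (Or.inl (by simpa [sx] using h))⟩
  · intro θ x y a h
    exact ⟨pe_supp hR Λ 1 θ x y a (Or.inl (by simpa [sx] using le_neg_of_le_neg h)),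
      pe_supp hR Λ 2 θ x y a (Or.inl (by simpa [sx] using le_neg_of_le_neg h))⟩
  · intro θ x y a h
    exact ⟨pe_supp hR Λ 0 θ x y a (Or.inr (by simpa [sy] using h)),
      pe_supp hR Λ 1 θ x y a (Or.inr (by simpa [sy] using h))⟩
  · intro θ x y a h
    exact ⟨pe_supp hR Λ 2 θ x y a (Or.inr (by simpa [sy] using le_neg_of_le_neg h)),
      pe_supp hR Λ 3 θ x y a (Or.inr (by simpa [sy] using le_neg_of_le_neg h))⟩

end PT4
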