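import Pool.Agent.Lib.PT4.Defs

/-!
Module PT4.AnaC: continuity.

`cont_den` (DK4.ContE) with `X = ℝ × ℝ × ℝ × (Fin 4 → ℝ)`, `a = (·.2.2.2)`; the sets `Qr i θ x y` are open and locally constant off
the two lines, see the proof of `cont_denr` in DK4.ContE (rotation, `null_re`, `null_im`; there `0, 0` in the place of `x, y`:
`ContEAux.sgn_loc'` with `g p = (exp (-p.1 I) z).re - p.2.1` and `g p = (exp (-p.1 I) z).im - p.2.2.1`).
-/

open MeasureTheory Set Filter Topology
open scoped ContDiff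

namespace PT4

open DK4 PL4

namespace AnaCAux

theorem sx_cases (i : Fin 4) : sx i = 1 ∨ sx i = -1 := by
  fin_cases i <;> simp [sx]

theorem sy_cases (i : Fin 4) : sy i = 1 ∨ sy i = -1 := by
  fin_cases i <;> simp [sy]

theorem sgn_locg {X : Type*} [TopologicalSpace X] {g h : X → ℝ} (hg : Continuous g)
    (hh : Continuous h) {σ : ℝ} (hσ : σ = 1 ∨ σ = -1) (x0 : X) (hne : g x0 ≠ h x0) :
    (∀ᶠ x in 𝓝 x0, 0 < σ * (g x - h x)) ∨ (∀ᶠ x in 𝓝 x0, ¬ 0 < σ * (g x - h x)) := by
  have h1 := ContEAux.sgn_loc' (g := fun x => g x - h x) (hg.sub hh) hσ x0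
    (sub_ne_zero.2 hne)
  simpa only [sub_zero] using h1

end AnaCAux

open AnaCAux

theorem pe_cont {v : Fin 4 → ℂ → ℝ} (hv : ∀ j, ContDiff ℝ ∞ (v j))
    (hvc : ∀ j, HasCompactSupport (v j)) (Λ : ℝ) (i : Fin 4) :
    Continuous fun p : ℝ × ℝ × ℝ × (Fin 4 → ℝ) => PE Λ v i p.1 p.2.1 p.2.2.1 p.2.2.2 := by
  unfold PE
  refine cont_den hv hvc Λ (fun p : ℝ × ℝ × ℝ × (Fin 4 → ℝ) => Qr i p.1 p.2.1 p.2.2.1)
    (fun p => ?_) (fun p0 => ?_) (fun p => p.2.2.2) (by fun_prop)
  · have h1 : IsOpen (Qd p.2.1 p.2.2.1 (sx i) (sy i)) := by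
      have k1 : IsOpen {z : ℂ | 0 < sx i * (z.re - p.2.1)} :=
        isOpen_lt continuous_const (by fun_prop)
      have k2 : IsOpen {z : ℂ | 0 < sy i * (z.im - p.2.2.1)} :=
        isOpen_lt continuous_const (by fun_prop)
      exact k1.inter k2
    have h2 : Continuous fun z : ℂ => Complex.exp (-(p.1 : ℂ) * Complex.I) * z := by fun_prop
    exact (h1.preimage h2).measurableSet
  · have hmp : MeasurePreserving (rotation (Circle.exp (-p0.1))) volume volume :=
      (rotation (Circle.exp (-p0.1))).measurePreserving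
    have hrot : ∀ z : ℂ, rotation (Circle.exp (-p0.1)) z =
        Complex.exp (-(p0.1 : ℂ) * Complex.I) * z := by
      intro z
      rw [rotation_apply, Circle.coe_exp]
      push_cast
      rfl
    have n1 := hmp.quasiMeasurePreserving.ae (ContMAux.null_re p0.2.1)
    have n2 := hmp.quasiMeasurePreserving.ae (ContMAux.null_im p0.2.2.1)
    filter_upwards [n1, n2] with z hz hz2
    rw [hrot] at hz hz2
    have g1 : Continuous fun p : ℝ × ℝ × ℝ × (Fin 4 → ℝ) =>
        (Complex.exp (-(p.1 : ℂ) * Complex.I) * z).re := by fun_prop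
    have g2 : Continuous fun p : ℝ × ℝ × ℝ × (Fin 4 → ℝ) =>
        (Complex.exp (-(p.1 : ℂ) * Complex.I) * z).im := by fun_prop
    have k1 : Continuous fun p : ℝ × ℝ × ℝ × (Fin 4 → ℝ) => p.2.1 := by fun_prop
    have k2 : Continuous fun p : ℝ × ℝ × ℝ × (Fin 4 → ℝ) => p.2.2.1 := by fun_prop
    have h1 := sgn_locg g1 k1 (sx_cases i) p0 hz
    have h2 := sgn_locg g2 k2 (sy_cases i) p0 hz2
    rcases h1 with h1 | h1
    · rcases h2 with h2 | h2
      · left
        filter_upwards [h1, h2] with x a b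
        exact ⟨a, b⟩
      · right
        filter_upwards [h2] with x b h
        exact b h.2
    · right
      filter_upwards [h1] with x b h
      exact b h.1

end PT4
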