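import Pool.Agent.Lib.PT4.Defs
import Pool.Agent.Lib.PL4.Cell
import Pool.Agent.Lib.DK4.Inv
import Pool.Agent.Lib.DK4.ContP
import Pool.Agent.Lib.DK4.Balance

/-!
Module PT4.Area: a quadrant in `Hull` contains the area `(3/4) π j01² / Λ` of `Ω`.

`quad_fg`: the second half of the proof of `quad2` in PL4.Cell, with `f, g` given.
`area`: let `(x', y')` be the witness, `a` with `PE a < 0`, `PE (-a) < 0`; `ζ = exp (θ I)`, `f z = max (uc v a (ζ z)) 0`,
`g z = max (uc v (-a) (ζ z)) 0`: `Adm` (composition with an isometry, `uc_adm`), nonnegative, at each point one is `0`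
(`uc v (-a) = - uc v a`), zero outside `Ω' = {z | ζ z ∈ Ω}`; energies: `setIntegral_rot`, `fderiv_rot` (DK4.Inv) with
`Qr i θ x' y' = {z | ζ⁻¹ z ∈ Qd x' y' _ _}`, so `Qd = {z | ζ z ∈ Qr}`.  `quad_fg` gives the area of `Ω' ∩ Qd x' y'`, which is the area of
`Ω ∩ Qr i θ x' y'` (`vol_rot`), and `Qr i θ x' y' ⊆ Qr i θ x y` (`sx i`, `sy i` are `±1`).
-/

open MeasureTheory Set
open scoped ContDiff NNReal

namespace PT4

open DK4 PL4

theorem quad_fg {Ω : Set ℂ} (hfin : volume Ω ≠ ⊤) {Λ : ℝ} (hΛ : 0 ≤ Λ) {t s σ τ : ℝ}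
    (hσ : σ = 1 ∨ σ = -1) (hτ : τ = 1 ∨ τ = -1) {f g : ℂ → ℝ} (hf : Adm f) (hg : Adm g)
    (f0 : ∀ z, 0 ≤ f z) (g0 : ∀ z, 0 ≤ g z) (hdis : ∀ z, f z = 0 ∨ g z = 0)
    (hout : ∀ z, z ∉ Ω → f z = 0 ∧ g z = 0) (hef : en Λ (Qd t s σ τ) f < 0)
    (heg : en Λ (Qd t s σ τ) g < 0) :
    3 / 4 * (Real.pi * j01 ^ 2) ≤ Λ * volume.real (Ω ∩ Qd t s σ τ) := by
  have hqf : q Λ (foldq t s σ τ f) < 0 := by
    unfold q
    rw [foldq_en hf hσ hτ, foldq_sq hf hσ hτ]
    rw [CellAux.en_split hf] at hef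
    linarith
  have hqg : q Λ (foldq t s σ τ g) < 0 := by
    unfold q
    rw [foldq_en hg hσ hτ, foldq_sq hg hσ hτ]
    rw [CellAux.en_split hg] at heg
    linarith
  have hev : ∀ u : ℂ → ℝ, ∀ z, foldq t s σ τ u (-z) = foldq t s σ τ u z := by
    intro u z
    unfold foldq
    rw [Complex.neg_re, Complex.neg_im, abs_neg, abs_neg]
  have hp := pair_lemma (foldq_adm hf hσ hτ) (foldq_adm hg hσ hτ) (fun z => f0 _) (fun z => g0 _)
    (hev f) (hev g) (fun z => hdis _) hqf hqg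
  have kf := FK4.fk (foldq_adm hf hσ hτ) (fun z => f0 _) hqf
  have kg := FK4.fk (foldq_adm hg hσ hτ) (fun z => g0 _) hqg
  rw [foldq_vol hf f0 hσ hτ, foldq_vol hg g0 hσ hτ] at hp
  rw [foldq_vol hf f0 hσ hτ] at kf
  rw [foldq_vol hg g0 hσ hτ] at kg
  have hL : 0 ≤ Real.pi * j01 ^ 2 := mul_nonneg Real.pi_pos.le (sq_nonneg _)
  have h3 := mul_le_mul_of_nonneg_left
    (CellAux.sum_le hfin (CellAux.meas_Qd t s σ τ) hf hg hdis hout) hΛ
  rw [mul_add] at h3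
  rcases hp with hp | hp | hp | hp <;> linarith

namespace AreaAux

theorem adm_rot {ζ : ℂ} (hζ : ‖ζ‖ = 1) {f : ℂ → ℝ} (hf : Adm f) : Adm fun z => f (ζ * z) := by
  obtain ⟨L, hL⟩ := InvAux.exists_rot hζ
  obtain ⟨K, hK⟩ := hf.lip
  have e : (fun z => f (ζ * z)) = f ∘ L := by
    funext z
    simp only [Function.comp_apply, hL]
  rw [e]
  refine ⟨⟨K, ?_⟩, hf.cpt.comp_homeomorph L.toHomeomorph⟩
  have h := hK.comp L.lipschitz
  rwa [mul_one] at h

theorem sx_pm (i : Fin 4) : sx i = 1 ∨ sx i = -1 := by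
  fin_cases i
  · exact Or.inl rfl
  · exact Or.inr rfl
  · exact Or.inr rfl
  · exact Or.inl rfl

theorem sy_pm (i : Fin 4) : sy i = 1 ∨ sy i = -1 := by
  fin_cases i
  · exact Or.inl rfl
  · exact Or.inl rfl
  · exact Or.inr rfl
  · exact Or.inr rfl

theorem pre (i : Fin 4) (θ x y : ℝ) :
    (fun z : ℂ => Complex.exp (θ * Complex.I) * z) ⁻¹' Qr i θ x y = Qd x y (sx i) (sy i) := by
  ext z
  have h1 : Complex.exp (-(θ : ℂ) * Complex.I) * (Complex.exp (θ * Complex.I) * z) = z := by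
    rw [← mul_assoc, ← Complex.exp_add]
    have h2 : -(θ : ℂ) * Complex.I + θ * Complex.I = 0 := by ring
    rw [h2, Complex.exp_zero, one_mul]
  change Complex.exp (-(θ : ℂ) * Complex.I) * (Complex.exp (θ * Complex.I) * z) ∈
    Qd x y (sx i) (sy i) ↔ _
  rw [h1]

theorem norm_rt (θ : ℝ) : ‖Complex.exp ((θ : ℂ) * Complex.I)‖ = 1 :=
  Complex.norm_exp_ofReal_mul_I θ

theorem pe_eq (Λ : ℝ) (v : Fin 4 → ℂ → ℝ) (i : Fin 4) (θ x y : ℝ) (a : Fin 4 → ℝ) :
    en Λ (Qd x y (sx i) (sy i))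
      (fun z => max (uc v a (Complex.exp ((θ : ℂ) * Complex.I) * z)) 0) = PE Λ v i θ x y a := by
  unfold PE en
  rw [← setIntegral_rot (norm_rt θ) (den Λ (fun z => max (uc v a z) 0)) (Qr i θ x y), pre]
  refine integral_congr_ae (Filter.Eventually.of_forall fun z => ?_)
  unfold den
  have h1 := fderiv_rot (norm_rt θ) (fun z => max (uc v a z) 0) z
  simp only at h1 ⊢
  rw [h1]

end AreaAux

open AreaAux

theorem area {Ω : Set ℂ} (hfin : volume Ω ≠ ⊤) {Λ : ℝ} (hΛ : 0 ≤ Λ) {v : Fin 4 → ℂ → ℝ}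
    (hv : ∀ j, IsTest Ω (v j)) {i : Fin 4} {θ x y : ℝ} (h : Hull (PE Λ v) i θ x y) :
    3 / 4 * (Real.pi * j01 ^ 2) ≤ Λ * volume.real (Ω ∩ Qr i θ x y) := by
  obtain ⟨x', y', hx, hy, a, h1, h2⟩ := h
  have hζ := norm_rt θ
  rw [← pe_eq] at h1 h2
  have hA : ∀ b : Fin 4 → ℝ,
      Adm (fun z => max (uc v b (Complex.exp ((θ : ℂ) * Complex.I) * z)) 0) := fun b =>
    adm_rot hζ (uc_adm (fun j => (hv j).1) (fun j => (hv j).2.1) b).pos
  have hz : ∀ b z, z ∉ Ω → uc v b z = 0 := by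
    intro b z hz
    unfold uc
    refine Finset.sum_eq_zero fun j _ => ?_
    rw [image_eq_zero_of_notMem_tsupport fun h => hz ((hv j).2.2 h), mul_zero]
  have hfin' : volume ((fun z : ℂ => Complex.exp ((θ : ℂ) * Complex.I) * z) ⁻¹' Ω) ≠ ⊤ := by
    rw [vol_rot hζ]
    exact hfin
  have key := quad_fg hfin' hΛ (sx_pm i) (sy_pm i) (hA a) (hA (-a)) (fun z => le_max_right _ _)
    (fun z => le_max_right _ _) (fun z => by
      rw [BalanceAux.uc_neg]
      rcases le_total (uc v a (Complex.exp ((θ : ℂ) * Complex.I) * z)) 0 with h | h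
      · exact Or.inl (max_eq_right h)
      · exact Or.inr (max_eq_right (by linarith)))
    (fun z hz' => by
      have h3 := hz a _ hz'
      have h4 := hz (-a) _ hz'
      constructor
      · rw [h3, max_self]
      · rw [h4, max_self]) h1 h2
  refine key.trans (mul_le_mul_of_nonneg_left ?_ hΛ)
  rw [← pre i θ x' y', ← preimage_inter]
  have h5 : volume.real ((fun z : ℂ => Complex.exp ((θ : ℂ) * Complex.I) * z) ⁻¹'
      (Ω ∩ Qr i θ x' y')) = volume.real (Ω ∩ Qr i θ x' y') := by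
    unfold Measure.real
    rw [vol_rot hζ]
  rw [h5]
  refine measureReal_mono ?_ (ne_top_of_le_ne_top hfin (measure_mono inter_subset_left))
  refine inter_subset_inter_right Ω ?_
  intro z hz'
  have h6 : Complex.exp (-(θ : ℂ) * Complex.I) * z ∈ Qd x' y' (sx i) (sy i) := hz'
  obtain ⟨h7, h8⟩ := h6
  refine ⟨?_, ?_⟩
  · have : sx i * ((Complex.exp (-(θ : ℂ) * Complex.I) * z).re - x) =
      sx i * ((Complex.exp (-(θ : ℂ) * Complex.I) * z).re - x') + sx i * (x' - x) := by ring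
    rw [this]
    linarith
  · have : sy i * ((Complex.exp (-(θ : ℂ) * Complex.I) * z).im - y) =
      sy i * ((Complex.exp (-(θ : ℂ) * Complex.I) * z).im - y') + sy i * (y' - y) := by ring
    rw [this]
    linarith

end PT4
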