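import Pool.Agent.Lib.PT4.Defs

/-!
Module PT4.Plane: the elementary argument with four monotone sets in the plane.

`A 0` is closed under going left and down, `A 1` right and down, `A 2` right and up, `A 3` left and up, and
every point of the square of size `R` is in one of the four sets.  `plane_lt`: `a = (x, s)`, `b = (x, s')` above `a`,
`c = (x1, y)`, `d = (x2, y)` on the left of `c`.
* `a ∈ A 1` (`a` is not in `A 0`, `A 3`; if `a ∈ A 2` then `b ∈ A 2`), `b ∈ A 3` (if `b ∈ A 0` then `a ∈ A 0`),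
  `c ∈ A 2` (if `c ∈ A 3` then `d ∈ A 3`), `d ∈ A 0` (if `d ∈ A 1` then `c ∈ A 1`).
* (1) not (`x ≤ x2` and `s ≤ y`), from `d ∈ A 0`, `a ∉ A 0`.  (2) not (`x1 ≤ x` and `y ≤ s'`), from `c ∈ A 2`, `b ∉ A 2`.
  (3) not (`x2 ≤ x` and `s' ≤ y`), from `b ∈ A 3`, `d ∉ A 3`.  (4) not (`x ≤ x1` and `y ≤ s`), from `a ∈ A 1`, `c ∉ A 1`.
* `x ≤ x2`: (1) and (4) contradict each other.  `x1 ≤ x`: (2) and (3).  `x2 < x < x1`: by (3), (4) `s < y < s'`, and
  `p = (x, y)` is in no set: `A 0` would give `a ∈ A 0`, `A 1` would give `c ∈ A 1`, `A 2` would give `b ∈ A 2`, `A 3` would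
  give `d ∈ A 3`.
`plane_gt` is the mirror image (apply `plane_lt` to `A' 0 x y = A 1 (-x) y`, `A' 1 x y = A 0 (-x) y`, `A' 2 x y = A 3 (-x) y`,
`A' 3 x y = A 2 (-x) y`, with `x` replaced by `-x`, `s, s'` exchanged and `(x1, x2)` replaced by `(-x1, -x2)`; or directly).
-/

open Set

namespace PT4

theorem plane_lt {A : Fin 4 → ℝ → ℝ → Prop} {R : ℝ}
    (m0 : ∀ x y x' y', x' ≤ x → y' ≤ y → A 0 x y → A 0 x' y')
    (m1 : ∀ x y x' y', x ≤ x' → y' ≤ y → A 1 x y → A 1 x' y')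
    (m2 : ∀ x y x' y', x ≤ x' → y ≤ y' → A 2 x y → A 2 x' y')
    (m3 : ∀ x y x' y', x' ≤ x → y ≤ y' → A 3 x y → A 3 x' y')
    (hcov : ∀ x y, |x| ≤ R → |y| ≤ R → ∃ i, A i x y)
    {x s s' : ℝ} (hx : |x| ≤ R) (hs : |s| ≤ R) (hs' : |s'| ≤ R) (hlt : s < s')
    (a0 : ¬ A 0 x s) (a3 : ¬ A 3 x s) (b1 : ¬ A 1 x s') (b2 : ¬ A 2 x s')
    {y x1 x2 : ℝ} (hy : |y| ≤ R) (hx1 : |x1| ≤ R) (hx2 : |x2| ≤ R) (hlt' : x2 < x1)
    (c1 : ¬ A 1 x1 y) (c0 : ¬ A 0 x1 y) (d2 : ¬ A 2 x2 y) (d3 : ¬ A 3 x2 y) : False := by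
  have ha : A 1 x s := by
    obtain ⟨i, hi⟩ := hcov x s hx hs
    fin_cases i
    · exact absurd hi a0
    · exact hi
    · exact absurd (m2 x s x s' le_rfl hlt.le hi) b2
    · exact absurd hi a3
  have hb : A 3 x s' := by
    obtain ⟨i, hi⟩ := hcov x s' hx hs'
    fin_cases i
    · exact absurd (m0 x s' x s le_rfl hlt.le hi) a0
    · exact absurd hi b1
    · exact absurd hi b2
    · exact hi
  have hc : A 2 x1 y := by
    obtain ⟨i, hi⟩ := hcov x1 y hx1 hy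
    fin_cases i
    · exact absurd hi c0
    · exact absurd hi c1
    · exact hi
    · exact absurd (m3 x1 y x2 y hlt'.le le_rfl hi) d3
  have hd : A 0 x2 y := by
    obtain ⟨i, hi⟩ := hcov x2 y hx2 hy
    fin_cases i
    · exact hi
    · exact absurd (m1 x2 y x1 y hlt'.le le_rfl hi) c1
    · exact absurd hi d2
    · exact absurd hi d3
  rcases le_or_gt x x2 with h | h
  · have h1 : y < s := by
      by_contra hn
      exact a0 (m0 x2 y x s h (not_lt.mp hn) hd)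
    exact c1 (m1 x s x1 y (h.trans hlt'.le) h1.le ha)
  rcases le_or_gt x1 x with h' | h'
  · have h1 : s' < y := by
      by_contra hn
      exact b2 (m2 x1 y x s' h' (not_lt.mp hn) hc)
    exact d3 (m3 x s' x2 y h.le h1.le hb)
  have h3 : y < s' := by
    by_contra hn
    exact d3 (m3 x s' x2 y h.le (not_lt.mp hn) hb)
  have h4 : s < y := by
    by_contra hn
    exact c1 (m1 x s x1 y h'.le (not_lt.mp hn) ha)
  obtain ⟨i, hi⟩ := hcov x y hx hy
  fin_cases i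
  · exact a0 (m0 x y x s le_rfl h4.le hi)
  · exact c1 (m1 x y x1 y h'.le le_rfl hi)
  · exact b2 (m2 x y x s' le_rfl h3.le hi)
  · exact d3 (m3 x y x2 y h.le le_rfl hi)

theorem plane_gt {A : Fin 4 → ℝ → ℝ → Prop} {R : ℝ}
    (m0 : ∀ x y x' y', x' ≤ x → y' ≤ y → A 0 x y → A 0 x' y')
    (m1 : ∀ x y x' y', x ≤ x' → y' ≤ y → A 1 x y → A 1 x' y')
    (m2 : ∀ x y x' y', x ≤ x' → y ≤ y' → A 2 x y → A 2 x' y')
    (m3 : ∀ x y x' y', x' ≤ x → y ≤ y' → A 3 x y → A 3 x' y')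
    (hcov : ∀ x y, |x| ≤ R → |y| ≤ R → ∃ i, A i x y)
    {x s s' : ℝ} (hx : |x| ≤ R) (hs : |s| ≤ R) (hs' : |s'| ≤ R) (hlt : s' < s)
    (a0 : ¬ A 0 x s) (a3 : ¬ A 3 x s) (b1 : ¬ A 1 x s') (b2 : ¬ A 2 x s')
    {y x1 x2 : ℝ} (hy : |y| ≤ R) (hx1 : |x1| ≤ R) (hx2 : |x2| ≤ R) (hlt' : x1 < x2)
    (c1 : ¬ A 1 x1 y) (c0 : ¬ A 0 x1 y) (d2 : ¬ A 2 x2 y) (d3 : ¬ A 3 x2 y) : False := by
  have ha : A 2 x s := by
    obtain ⟨i, hi⟩ := hcov x s hx hs
    fin_cases i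
    · exact absurd hi a0
    · exact absurd (m1 x s x s' le_rfl hlt.le hi) b1
    · exact hi
    · exact absurd hi a3
  have hb : A 0 x s' := by
    obtain ⟨i, hi⟩ := hcov x s' hx hs'
    fin_cases i
    · exact hi
    · exact absurd hi b1
    · exact absurd hi b2
    · exact absurd (m3 x s' x s le_rfl hlt.le hi) a3
  have hc : A 3 x1 y := by
    obtain ⟨i, hi⟩ := hcov x1 y hx1 hy
    fin_cases i
    · exact absurd hi c0
    · exact absurd hi c1
    · exact absurd (m2 x1 y x2 y hlt'.le le_rfl hi) d2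
    · exact hi
  have hd : A 1 x2 y := by
    obtain ⟨i, hi⟩ := hcov x2 y hx2 hy
    fin_cases i
    · exact absurd (m0 x2 y x1 y hlt'.le le_rfl hi) c0
    · exact hi
    · exact absurd hi d2
    · exact absurd hi d3
  rcases le_or_gt x2 x with h | h
  · have h1 : y < s' := by
      by_contra hn
      exact b1 (m1 x2 y x s' h (not_lt.mp hn) hd)
    exact c0 (m0 x s' x1 y (hlt'.le.trans h) h1.le hb)
  rcases le_or_gt x x1 with h' | h'
  · have h1 : s < y := by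
      by_contra hn
      exact a3 (m3 x1 y x s h' (not_lt.mp hn) hc)
    exact d2 (m2 x s x2 y h.le h1.le ha)
  have h3 : y < s := by
    by_contra hn
    exact d2 (m2 x s x2 y h.le (not_lt.mp hn) ha)
  have h4 : s' < y := by
    by_contra hn
    exact c0 (m0 x s' x1 y h'.le (not_lt.mp hn) hb)
  obtain ⟨i, hi⟩ := hcov x y hx hy
  fin_cases i
  · exact c0 (m0 x y x1 y h'.le le_rfl hi)
  · exact b1 (m1 x y x s' le_rfl h4.le hi)
  · exact d2 (m2 x y x2 y h.le le_rfl hi)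
  · exact a3 (m3 x y x s le_rfl h3.le hi)

end PT4
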