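import Pool.Agent.Lib.PT4.Conn
import Pool.Agent.Lib.PT4.Plane

/-!
Module PT4.Comb: the topological part.

Suppose there is no such double T.  `K ⊆ ℝ × (ℝ × (ℝ × ℝ))`, the points `(θ, x, s, s')` with `x, s, s' ∈ [-R, R]`,
`(x, s) ∉ A 0 θ ∪ A 3 θ`, `(x, s') ∉ A 1 θ ∪ A 2 θ`.
* `K` is closed (`hopen`; the maps `(θ, x, s, s') ↦ (θ, x, s)`, `(θ, x, s')` are continuous).
* Fibre over `(θ, x)`: a product of two sets of `s`, `s'`, both order connected in `[-R, R]` (if `s1 ≤ s ≤ s2` then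
  `s ∈ A 0` gives `s1 ∈ A 0`, `s ∈ A 3` gives `s2 ∈ A 3`), so preconnected (`OrdConnected.isPreconnected`, `IsPreconnected.prod`).
* `X θ` = the `x ∈ [-R, R]` with no `s` in `A 0 ∩ A 3` and no `s'` in `A 1 ∩ A 2`: order connected by monotonicity.
  For such `x` the fibre is not empty: `[-R, R]` is preconnected, `A 0` and `A 3` (sections) are open, `R ∉ A 0`,
  `-R ∉ A 3` (`hb2`, `hb3`): if they cover `[-R, R]` they meet.  Conversely, if `(x, s) ∉ A 0 ∪ A 3` there is no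
  `s1` in both (`s1 ≤ s` gives `s ∈ A 3`; `s ≤ s1` gives `s ∈ A 0`).
* `X θ` is not empty: otherwise the open sets `{x | ∃ s, A 0 ∧ A 3}` and `{x | ∃ s', A 1 ∧ A 2}` cover `[-R, R]`; the first
  does not contain `R` (`hb0`), the second does not contain `-R` (`hb1`), so they have a common point, the double T.
* `preconn_of_fibers` twice: the fibre of `K` over `θ` is preconnected, and `K` is preconnected.
* `K ⊆ Dp ∪ Dm`, disjoint on `K`, both open: `K ∩ Dp` or `K ∩ Dm` is empty (`IsPreconnected.subset_left_of_subset_union` or the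
  definition).  A point `(θ, x, s, s) ∈ K`: then `(θ + π/2, s, -x, -x) ∈ K` by `hrot` (`A i (θ + π/2) s (-x) ↔ A (i+1) θ x s`), one
  is in `Dp`, the other in `Dm`.  Contradiction.  So `s ≠ s'` on `K`, and every `(x, y)` in the square is in some `A i`.
* The continuous function `s - s'` has no zero on `K`: constant sign.  Take a point of `K` over `0` and one over `π/2`,
  `(π/2, y, t, t')`; with `x1 = -t`, `x2 = -t'`: `¬ A 1 0 x1 y`, `¬ A 0 0 x1 y` (from `¬ A 0 (π/2) y t`, `¬ A 3 (π/2) y t`; `3 + 1 = 0` in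
  `Fin 4`), `¬ A 2 0 x2 y`, `¬ A 3 0 x2 y`.  `plane_lt` (if `s < s'` on `K`: `t < t'`, `x2 < x1`) or `plane_gt`.
-/

open Set

namespace PT4

namespace CombAux

/-- an interval on which two relatively open sets cannot meet, one missing each end, is not covered -/
theorem gap {R : ℝ} (hR : 0 < R) {U V : ℝ → Prop} (hU : IsOpen {s | U s}) (hV : IsOpen {s | V s})
    (h1 : ¬ U R) (h2 : ¬ V (-R)) (hno : ∀ s, ¬ (U s ∧ V s)) :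
    ∃ s ∈ Icc (-R) R, ¬ U s ∧ ¬ V s := by
  by_contra hcon
  push Not at hcon
  have hle : -R ≤ R := by linarith
  have hsub : Icc (-R) R ⊆ {s | U s} ∪ {s | V s} := by
    intro s hs
    by_cases hu : U s
    · exact Or.inl hu
    · exact Or.inr (hcon s hs hu)
  have hmR : R ∈ Icc (-R) R := ⟨hle, le_rfl⟩
  have hmL : -R ∈ Icc (-R) R := ⟨le_rfl, hle⟩
  have hVR : V R := hcon R hmR h1
  have hUL : U (-R) := by
    by_contra hu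
    exact h2 (hcon (-R) hmL hu)
  obtain ⟨s, _, hs⟩ := isPreconnected_Icc (a := -R) (b := R) _ _ hU hV hsub
    ⟨-R, hmL, hUL⟩ ⟨R, hmR, hVR⟩
  exact hno s hs

end CombAux

open CombAux

theorem comb {R : ℝ} (hR : 0 < R) (A : Fin 4 → ℝ → ℝ → ℝ → Prop)
    (hopen : ∀ i, IsOpen {p : ℝ × ℝ × ℝ | A i p.1 p.2.1 p.2.2})
    (m0 : ∀ θ x y x' y', x' ≤ x → y' ≤ y → A 0 θ x y → A 0 θ x' y')
    (m1 : ∀ θ x y x' y', x ≤ x' → y' ≤ y → A 1 θ x y → A 1 θ x' y')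
    (m2 : ∀ θ x y x' y', x ≤ x' → y ≤ y' → A 2 θ x y → A 2 θ x' y')
    (m3 : ∀ θ x y x' y', x' ≤ x → y ≤ y' → A 3 θ x y → A 3 θ x' y')
    (hrot : ∀ i θ x y, A i (θ + Real.pi / 2) x y ↔ A (i + 1) θ (-y) x)
    (hb0 : ∀ θ x y, R ≤ x → ¬ A 0 θ x y ∧ ¬ A 3 θ x y)
    (hb1 : ∀ θ x y, x ≤ -R → ¬ A 1 θ x y ∧ ¬ A 2 θ x y)
    (hb2 : ∀ θ x y, R ≤ y → ¬ A 0 θ x y ∧ ¬ A 1 θ x y)
    (hb3 : ∀ θ x y, y ≤ -R → ¬ A 2 θ x y ∧ ¬ A 3 θ x y)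
    (Dp Dm : ℝ → ℝ → ℝ → ℝ → Prop)
    (hDp : IsOpen {p : ℝ × ℝ × ℝ × ℝ | Dp p.1 p.2.1 p.2.2.1 p.2.2.2})
    (hDm : IsOpen {p : ℝ × ℝ × ℝ × ℝ | Dm p.1 p.2.1 p.2.2.1 p.2.2.2})
    (hcov : ∀ θ x s s', ¬ A 0 θ x s → ¬ A 3 θ x s → ¬ A 1 θ x s' → ¬ A 2 θ x s' →
      Dp θ x s s' ∨ Dm θ x s s')
    (hdis : ∀ θ x s s', ¬ A 0 θ x s → ¬ A 3 θ x s → ¬ A 1 θ x s' → ¬ A 2 θ x s' →
      ¬ (Dp θ x s s' ∧ Dm θ x s s'))
    (hsw : ∀ θ x s, Dp θ x s s → Dm (θ + Real.pi / 2) s (-x) (-x))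
    (hsw' : ∀ θ x s, Dm θ x s s → Dp (θ + Real.pi / 2) s (-x) (-x)) :
    ∃ θ x s s', A 0 θ x s ∧ A 3 θ x s ∧ A 1 θ x s' ∧ A 2 θ x s' := by
  by_contra hcon
  have hno : ∀ θ x s s', ¬ (A 0 θ x s ∧ A 3 θ x s ∧ A 1 θ x s' ∧ A 2 θ x s') := fun θ x s s' h =>
    hcon ⟨θ, x, s, s', h⟩
  have c1 : Continuous (fun p : ℝ × ℝ × ℝ × ℝ => (p.1, p.2.1, p.2.2.1)) := by fun_prop
  have c2 : Continuous (fun p : ℝ × ℝ × ℝ × ℝ => (p.1, p.2.1, p.2.2.2)) := by fun_prop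
  set K : Set (ℝ × ℝ × ℝ × ℝ) := {p | (p.2.1 ∈ Icc (-R) R ∧ p.2.2.1 ∈ Icc (-R) R ∧
    p.2.2.2 ∈ Icc (-R) R) ∧ (¬ A 0 p.1 p.2.1 p.2.2.1 ∧ ¬ A 3 p.1 p.2.1 p.2.2.1) ∧
    (¬ A 1 p.1 p.2.1 p.2.2.2 ∧ ¬ A 2 p.1 p.2.1 p.2.2.2)} with hKdef
  have hKc : IsClosed K := by
    have k1 : IsClosed {p : ℝ × ℝ × ℝ × ℝ | p.2.1 ∈ Icc (-R) R} :=
      isClosed_Icc.preimage (by fun_prop)
    have k2 : IsClosed {p : ℝ × ℝ × ℝ × ℝ | p.2.2.1 ∈ Icc (-R) R} :=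
      isClosed_Icc.preimage (by fun_prop)
    have k3 : IsClosed {p : ℝ × ℝ × ℝ × ℝ | p.2.2.2 ∈ Icc (-R) R} :=
      isClosed_Icc.preimage (by fun_prop)
    have k4 : IsClosed {p : ℝ × ℝ × ℝ × ℝ | ¬ A 0 p.1 p.2.1 p.2.2.1} :=
      ((hopen 0).preimage c1).isClosed_compl
    have k5 : IsClosed {p : ℝ × ℝ × ℝ × ℝ | ¬ A 3 p.1 p.2.1 p.2.2.1} :=
      ((hopen 3).preimage c1).isClosed_compl
    have k6 : IsClosed {p : ℝ × ℝ × ℝ × ℝ | ¬ A 1 p.1 p.2.1 p.2.2.2} :=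
      ((hopen 1).preimage c2).isClosed_compl
    have k7 : IsClosed {p : ℝ × ℝ × ℝ × ℝ | ¬ A 2 p.1 p.2.1 p.2.2.2} :=
      ((hopen 2).preimage c2).isClosed_compl
    exact (k1.inter (k2.inter k3)).inter ((k4.inter k5).inter (k6.inter k7))
  -- sections are open
  have osec : ∀ i θ x, IsOpen {s : ℝ | A i θ x s} := fun i θ x =>
    (hopen i).preimage (by fun_prop : Continuous fun s : ℝ => (θ, x, s))
  have osec' : ∀ i θ s, IsOpen {x : ℝ | A i θ x s} := fun i θ s =>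
    (hopen i).preimage (by fun_prop : Continuous fun x : ℝ => (θ, x, s))
  -- the admissible x
  set X : ℝ → Set ℝ := fun θ => {x | x ∈ Icc (-R) R ∧ (∀ s, ¬ (A 0 θ x s ∧ A 3 θ x s)) ∧
    ∀ s, ¬ (A 1 θ x s ∧ A 2 θ x s)} with hXdef
  have hXo : ∀ θ, (X θ).OrdConnected := by
    intro θ
    refine ⟨fun x1 h1 x2 h2 x hx => ⟨⟨h1.1.1.trans hx.1, hx.2.trans h2.1.2⟩, fun s hs => ?_,
      fun s hs => ?_⟩⟩
    · exact h1.2.1 s ⟨m0 θ x s x1 s hx.1 le_rfl hs.1, m3 θ x s x1 s hx.1 le_rfl hs.2⟩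
    · exact h2.2.2 s ⟨m1 θ x s x2 s hx.2 le_rfl hs.1, m2 θ x s x2 s hx.2 le_rfl hs.2⟩
  have hXne : ∀ θ, ∃ x, x ∈ X θ := by
    intro θ
    have o1 : IsOpen {x : ℝ | ∃ s, A 0 θ x s ∧ A 3 θ x s} := by
      have : {x : ℝ | ∃ s, A 0 θ x s ∧ A 3 θ x s} = ⋃ s, ({x | A 0 θ x s} ∩ {x | A 3 θ x s}) := by
        ext x
        simp
      rw [this]
      exact isOpen_iUnion fun s => (osec' 0 θ s).inter (osec' 3 θ s)
    have o2 : IsOpen {x : ℝ | ∃ s, A 1 θ x s ∧ A 2 θ x s} := by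
      have : {x : ℝ | ∃ s, A 1 θ x s ∧ A 2 θ x s} = ⋃ s, ({x | A 1 θ x s} ∩ {x | A 2 θ x s}) := by
        ext x
        simp
      rw [this]
      exact isOpen_iUnion fun s => (osec' 1 θ s).inter (osec' 2 θ s)
    obtain ⟨x, hx, n1, n2⟩ := gap hR o1 o2
      (fun ⟨s, hs⟩ => (hb0 θ R s le_rfl).1 hs.1)
      (fun ⟨s, hs⟩ => (hb1 θ (-R) s le_rfl).1 hs.1)
      (fun x ⟨⟨s, hs⟩, ⟨s', hs'⟩⟩ => hno θ x s s' ⟨hs.1, hs.2, hs'.1, hs'.2⟩)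
    exact ⟨x, hx, fun s hs => n1 ⟨s, hs⟩, fun s hs => n2 ⟨s, hs⟩⟩
  -- nonempty fibres
  have hfib : ∀ θ x, x ∈ X θ → ∃ s s', (θ, x, s, s') ∈ K := by
    intro θ x hx
    obtain ⟨s, hs, h0, h3⟩ := gap hR (osec 0 θ x) (osec 3 θ x) (hb2 θ x R le_rfl).1
      (hb3 θ x (-R) le_rfl).2 hx.2.1
    obtain ⟨s', hs', h1, h2⟩ := gap hR (osec 1 θ x) (osec 2 θ x) (hb2 θ x R le_rfl).2
      (hb3 θ x (-R) le_rfl).1 hx.2.2
    exact ⟨s, s', ⟨hx.1, hs, hs'⟩, ⟨h0, h3⟩, ⟨h1, h2⟩⟩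
  have hback : ∀ θ x s s', (θ, x, s, s') ∈ K → x ∈ X θ := by
    rintro θ x s s' ⟨⟨hx, _, _⟩, ⟨h0, h3⟩, ⟨h1, h2⟩⟩
    refine ⟨hx, fun t ht => ?_, fun t ht => ?_⟩
    · rcases le_total t s with h | h
      · exact h3 (m3 θ x t x s le_rfl h ht.2)
      · exact h0 (m0 θ x t x s le_rfl h ht.1)
    · rcases le_total t s' with h | h
      · exact h2 (m2 θ x t x s' le_rfl h ht.2)
      · exact h1 (m1 θ x t x s' le_rfl h ht.1)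
  -- fibres over `(θ, x)`
  have hf2 : ∀ θ x, IsPreconnected {y : ℝ × ℝ | (θ, x, y) ∈ K} := by
    intro θ x
    by_cases hx : x ∈ Icc (-R) R
    · have e : {y : ℝ × ℝ | (θ, x, y) ∈ K} =
          {s | s ∈ Icc (-R) R ∧ ¬ A 0 θ x s ∧ ¬ A 3 θ x s} ×ˢ
            {s | s ∈ Icc (-R) R ∧ ¬ A 1 θ x s ∧ ¬ A 2 θ x s} := by
        ext ⟨s, s'⟩
        constructor
        · rintro ⟨⟨_, h1, h2⟩, h3, h4⟩
          exact ⟨⟨h1, h3⟩, ⟨h2, h4⟩⟩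
        · rintro ⟨⟨h1, h3⟩, ⟨h2, h4⟩⟩
          exact ⟨⟨hx, h1, h2⟩, h3, h4⟩
      rw [e]
      have q1 : ({s | s ∈ Icc (-R) R ∧ ¬ A 0 θ x s ∧ ¬ A 3 θ x s} : Set ℝ).OrdConnected := by
        refine ⟨fun s1 h1 s2 h2 s hs => ⟨⟨h1.1.1.trans hs.1, hs.2.trans h2.1.2⟩, fun h => ?_,
          fun h => ?_⟩⟩
        · exact h1.2.1 (m0 θ x s x s1 le_rfl hs.1 h)
        · exact h2.2.2 (m3 θ x s x s2 le_rfl hs.2 h)
      have q2 : ({s | s ∈ Icc (-R) R ∧ ¬ A 1 θ x s ∧ ¬ A 2 θ x s} : Set ℝ).OrdConnected := by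
        refine ⟨fun s1 h1 s2 h2 s hs => ⟨⟨h1.1.1.trans hs.1, hs.2.trans h2.1.2⟩, fun h => ?_,
          fun h => ?_⟩⟩
        · exact h1.2.1 (m1 θ x s x s1 le_rfl hs.1 h)
        · exact h2.2.2 (m2 θ x s x s2 le_rfl hs.2 h)
      exact q1.isPreconnected.prod q2.isPreconnected
    · have e : {y : ℝ × ℝ | (θ, x, y) ∈ K} = ∅ := by
        refine Set.eq_empty_iff_forall_notMem.2 (fun y h => ?_)
        exact hx h.1.1
      rw [e]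
      exact isPreconnected_empty
  have hcI : IsCompact (Icc (-R) R) := isCompact_Icc
  -- fibres over `θ`
  have hf1 : ∀ θ, IsPreconnected {q : ℝ × ℝ × ℝ | (θ, q) ∈ K} := by
    intro θ
    refine preconn_of_fibers (C := Icc (-R) R ×ˢ Icc (-R) R) (I := X θ)
      (hKc.preimage (by fun_prop : Continuous fun q : ℝ × ℝ × ℝ => (θ, q))) (hcI.prod hcI)
      (fun p hp => ⟨hp.1.2.1, hp.1.2.2⟩) (hXo θ).isPreconnected
      (fun p hp => hback θ p.1 p.2.1 p.2.2 hp) (fun t ht => ?_) (fun t _ => hf2 θ t)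
    obtain ⟨s, s', h⟩ := hfib θ t ht
    exact ⟨(s, s'), h⟩
  have hKpre : IsPreconnected K := by
    refine preconn_of_fibers (C := Icc (-R) R ×ˢ (Icc (-R) R ×ˢ Icc (-R) R)) (I := univ)
      hKc (hcI.prod (hcI.prod hcI)) (fun p hp => ⟨hp.1.1, hp.1.2.1, hp.1.2.2⟩)
      isPreconnected_univ (fun p _ => mem_univ _) (fun t _ => ?_) (fun t _ => hf1 t)
    obtain ⟨x, hx⟩ := hXne t
    obtain ⟨s, s', h⟩ := hfib t x hx
    exact ⟨(x, s, s'), h⟩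
  have hne : ∀ θ, ∃ x s s', (θ, x, s, s') ∈ K := by
    intro θ
    obtain ⟨x, hx⟩ := hXne θ
    obtain ⟨s, s', h⟩ := hfib θ x hx
    exact ⟨x, s, s', h⟩
  -- the orientation is constant
  have hori : ¬ ((K ∩ {p : ℝ × ℝ × ℝ × ℝ | Dp p.1 p.2.1 p.2.2.1 p.2.2.2}).Nonempty ∧
      (K ∩ {p : ℝ × ℝ × ℝ × ℝ | Dm p.1 p.2.1 p.2.2.1 p.2.2.2}).Nonempty) := by
    rintro ⟨h1, h2⟩
    obtain ⟨p, hp, hp1, hp2⟩ := hKpre _ _ hDp hDm
      (fun p hp => hcov p.1 p.2.1 p.2.2.1 p.2.2.2 hp.2.1.1 hp.2.1.2 hp.2.2.1 hp.2.2.2) h1 h2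
    exact hdis p.1 p.2.1 p.2.2.1 p.2.2.2 hp.2.1.1 hp.2.1.2 hp.2.2.1 hp.2.2.2 ⟨hp1, hp2⟩
  have hcross : ∀ θ x s, (θ, x, s, s) ∉ K := by
    intro θ x s hK
    obtain ⟨⟨hx, hs, _⟩, ⟨h0, h3⟩, ⟨h1, h2⟩⟩ := hK
    have hK1 : (θ, x, s, s) ∈ K := ⟨⟨hx, hs, hs⟩, ⟨h0, h3⟩, ⟨h1, h2⟩⟩
    have r : ∀ i, A i (θ + Real.pi / 2) s (-x) ↔ A (i + 1) θ x s := by
      intro i
      have := hrot i θ s (-x)
      rwa [neg_neg] at this
    have hK2 : (θ + Real.pi / 2, s, -x, -x) ∈ K := by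
      refine ⟨⟨hs, ⟨by linarith [hx.2], by linarith [hx.1]⟩,
        ⟨by linarith [hx.2], by linarith [hx.1]⟩⟩, ⟨?_, ?_⟩, ⟨?_, ?_⟩⟩
      · exact fun h => h1 ((r 0).1 h)
      · exact fun h => h0 ((r 3).1 h)
      · exact fun h => h2 ((r 1).1 h)
      · exact fun h => h3 ((r 2).1 h)
    rcases hcov θ x s s h0 h3 h1 h2 with h | h
    · exact hori ⟨⟨_, hK1, h⟩, ⟨_, hK2, hsw θ x s h⟩⟩
    · exact hori ⟨⟨_, hK2, hsw' θ x s h⟩, ⟨_, hK1, h⟩⟩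
  have hsq : ∀ x y, |x| ≤ R → |y| ≤ R → ∃ i, A i 0 x y := by
    intro x y hx hy
    by_contra hcon2
    push Not at hcon2
    exact hcross 0 x y ⟨⟨abs_le.1 hx, abs_le.1 hy, abs_le.1 hy⟩, ⟨hcon2 0, hcon2 3⟩,
      ⟨hcon2 1, hcon2 2⟩⟩
  -- constant sign
  have hsign : ¬ ((K ∩ {p : ℝ × ℝ × ℝ × ℝ | p.2.2.1 < p.2.2.2}).Nonempty ∧
      (K ∩ {p : ℝ × ℝ × ℝ × ℝ | p.2.2.2 < p.2.2.1}).Nonempty) := by
    rintro ⟨h1, h2⟩
    obtain ⟨p, hp, hp1, hp2⟩ := hKpre _ _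
      (isOpen_lt (by fun_prop : Continuous fun p : ℝ × ℝ × ℝ × ℝ => p.2.2.1)
        (by fun_prop : Continuous fun p : ℝ × ℝ × ℝ × ℝ => p.2.2.2))
      (isOpen_lt (by fun_prop : Continuous fun p : ℝ × ℝ × ℝ × ℝ => p.2.2.2)
        (by fun_prop : Continuous fun p : ℝ × ℝ × ℝ × ℝ => p.2.2.1))
      (fun p hp => by
        rcases lt_trichotomy p.2.2.1 p.2.2.2 with h | h | h
        · exact Or.inl h
        · exfalso
          refine hcross p.1 p.2.1 p.2.2.1 ?_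
          have : (p.1, p.2.1, p.2.2.1, p.2.2.1) = p := by
            ext <;> simp [h]
          rw [this]
          exact hp
        · exact Or.inr h) h1 h2
    exact lt_asymm (show p.2.2.1 < p.2.2.2 from hp1) (show p.2.2.2 < p.2.2.1 from hp2)
  obtain ⟨x, s, s', hp⟩ := hne 0
  obtain ⟨y, t, t', hq⟩ := hne (0 + Real.pi / 2)
  have d1 : ¬ A 1 0 (-t) y := fun h => hq.2.1.1 ((hrot 0 0 y t).2 h)
  have d0 : ¬ A 0 0 (-t) y := fun h => hq.2.1.2 ((hrot 3 0 y t).2 h)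
  have d2 : ¬ A 2 0 (-t') y := fun h => hq.2.2.1 ((hrot 1 0 y t').2 h)
  have d3 : ¬ A 3 0 (-t') y := fun h => hq.2.2.2 ((hrot 2 0 y t').2 h)
  have bx : |x| ≤ R := abs_le.2 hp.1.1
  have bs : |s| ≤ R := abs_le.2 hp.1.2.1
  have bs' : |s'| ≤ R := abs_le.2 hp.1.2.2
  have bY : |y| ≤ R := abs_le.2 hq.1.1
  have bt : |-t| ≤ R := by
    rw [abs_neg]
    exact abs_le.2 hq.1.2.1
  have bt' : |-t'| ≤ R := by
    rw [abs_neg]
    exact abs_le.2 hq.1.2.2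
  rcases lt_trichotomy s s' with h | h | h
  · have h' : t < t' := by
      rcases lt_trichotomy t t' with h' | h' | h'
      · exact h'
      · exfalso
        subst h'
        exact hcross _ _ _ hq
      · exact absurd ⟨⟨_, hp, h⟩, ⟨_, hq, h'⟩⟩ hsign
    exact plane_lt (A := fun i x y => A i 0 x y) (m0 0) (m1 0) (m2 0) (m3 0) hsq bx bs bs' h
      hp.2.1.1 hp.2.1.2 hp.2.2.1 hp.2.2.2 bY bt bt' (neg_lt_neg h') d1 d0 d2 d3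
  · subst h
    exact hcross _ _ _ hp
  · have h' : t' < t := by
      rcases lt_trichotomy t t' with h' | h' | h'
      · exact absurd ⟨⟨_, hq, h'⟩, ⟨_, hp, h⟩⟩ hsign
      · exfalso
        subst h'
        exact hcross _ _ _ hq
      · exact h'
    exact plane_gt (A := fun i x y => A i 0 x y) (m0 0) (m1 0) (m2 0) (m3 0) hsq bx bs bs' h
      hp.2.1.1 hp.2.1.2 hp.2.2.1 hp.2.2.2 bY bt bt' (neg_lt_neg h') d1 d0 d2 d3

end PT4
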