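import Pool.Agent.Lib.PT4.Defs

/-!
Module PT4.Conn: a closed set over an interval with compact connected fibres is connected.

`isPreconnected_closed_iff`: let `F, G` be closed, `K ⊆ F ∪ G`, `K ∩ F`, `K ∩ G` nonempty.  The projections of `K ∩ F` and
`K ∩ G` to `ℝ` are closed (`K` lies over the compact set `C`: restrict to `ℝ × C` with `CompactSpace C` and
`isClosedMap_fst_of_compactSpace`, or the closedness of the projection of a closed subset of `X ×ˢ C`) and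
cover `I`, and both meet `I`; `I` is preconnected, so there is `t ∈ I` in both.  The fibre over `t` is
preconnected and is covered by `F`, `G` and meets both, so it meets `F ∩ G`.
-/

open Set

namespace PT4

theorem isClosed_proj_of_over {Y : Type*} [TopologicalSpace Y] {K : Set (ℝ × Y)} (hK : IsClosed K)
    {C : Set Y} (hC : IsCompact C) (hKC : ∀ p ∈ K, p.2 ∈ C) : IsClosed (Prod.fst '' K) := by
  have : CompactSpace C := isCompact_iff_compactSpace.mp hC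
  have h1 : Continuous (fun p : ℝ × C => ((p.1, (p.2 : Y)) : ℝ × Y)) :=
    continuous_fst.prodMk (continuous_subtype_val.comp continuous_snd)
  have h2 : IsClosed ((fun p : ℝ × C => ((p.1, (p.2 : Y)) : ℝ × Y)) ⁻¹' K) := hK.preimage h1
  have h3 : IsClosed (Prod.fst '' ((fun p : ℝ × C => ((p.1, (p.2 : Y)) : ℝ × Y)) ⁻¹' K)) :=
    isClosedMap_fst_of_compactSpace _ h2
  convert h3 using 1
  ext t
  constructor
  · rintro ⟨p, hp, rfl⟩
    exact ⟨(p.1, ⟨p.2, hKC p hp⟩), hp, rfl⟩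
  · rintro ⟨p, hp, rfl⟩
    exact ⟨(p.1, (p.2 : Y)), hp, rfl⟩

theorem preconn_of_fibers {Y : Type*} [TopologicalSpace Y] {K : Set (ℝ × Y)} (hK : IsClosed K)
    {C : Set Y} (hC : IsCompact C) (hKC : ∀ p ∈ K, p.2 ∈ C) {I : Set ℝ} (hI : IsPreconnected I)
    (hsub : ∀ p ∈ K, p.1 ∈ I) (hne : ∀ t ∈ I, ∃ y, (t, y) ∈ K)
    (hc : ∀ t ∈ I, IsPreconnected {y | (t, y) ∈ K}) : IsPreconnected K := by
  rw [isPreconnected_closed_iff]
  intro F G hF hG hKFG hKF hKG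
  have hPF : IsClosed (Prod.fst '' (K ∩ F)) :=
    isClosed_proj_of_over (hK.inter hF) hC (fun p hp => hKC p hp.1)
  have hPG : IsClosed (Prod.fst '' (K ∩ G)) :=
    isClosed_proj_of_over (hK.inter hG) hC (fun p hp => hKC p hp.1)
  have hcov : I ⊆ Prod.fst '' (K ∩ F) ∪ Prod.fst '' (K ∩ G) := by
    intro t ht
    obtain ⟨y, hy⟩ := hne t ht
    rcases hKFG hy with h | h
    · exact Or.inl ⟨(t, y), ⟨hy, h⟩, rfl⟩
    · exact Or.inr ⟨(t, y), ⟨hy, h⟩, rfl⟩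
  obtain ⟨p, hp⟩ := hKF
  obtain ⟨q, hq⟩ := hKG
  obtain ⟨t, htI, ⟨a, ha, hat⟩, ⟨b, hb, hbt⟩⟩ :=
    (isPreconnected_closed_iff.mp hI) _ _ hPF hPG hcov
      ⟨p.1, hsub p hp.1, ⟨p, hp, rfl⟩⟩ ⟨q.1, hsub q hq.1, ⟨q, hq, rfl⟩⟩
  obtain ⟨a1, a2⟩ := a
  obtain ⟨b1, b2⟩ := b
  simp only at hat hbt
  subst hat
  subst hbt
  have hcont : Continuous (fun y : Y => ((b1, y) : ℝ × Y)) := by fun_prop
  have hF' : IsClosed {y : Y | ((b1, y) : ℝ × Y) ∈ F} := hF.preimage hcont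
  have hG' : IsClosed {y : Y | ((b1, y) : ℝ × Y) ∈ G} := hG.preimage hcont
  obtain ⟨y, hy, hy1, hy2⟩ := (isPreconnected_closed_iff.mp (hc b1 htI)) _ _ hF' hG'
    (fun y hy => hKFG hy) ⟨a2, ha.1, ha.2⟩ ⟨b2, hb.1, hb.2⟩
  exact ⟨(b1, y), hy, hy1, hy2⟩

end PT4
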