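import Pool.Agent.Lib.PT4.Path

/-!
Module PT4.Orient: the orientation of a double T.

For a point with `¬ Two P i θ x (ht s s' i)` for all `i` choose `β i` by `Fam.quad` (`p i = P i θ x (ht s s' i)` is continuous by
`Fam.cont`).  `Bf P i θ x y a b = β a b` (polarisation), so `Mt P θ x s s' w` is the matrix of `PT4.indep`.
* `ori_cov`: `exists_neg` gives `w i` with `β i (w i) (w i) < 0`, so `p i (w i) < 0` or `p i (-(w i)) < 0`: change the sign if needed.
  `indep`: the determinant is not zero, so it is positive (`Ori P 1`) or negative (`Ori P (-1)`).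
* `ori_dis`: two choices `w`, `w'`: `wt i = (1 - t) w i + t w' i` has `β i (wt i) (wt i) < 0` by `cone`, so the determinant of
  `Mt P θ x s s' wt` is not zero on `[0, 1]` (`indep`), continuous in `t`, but it changes sign (intermediate value theorem).
* `ori_open`: for fixed `w` the conditions are open in `(θ, x, s, s')` (`Fam.cont`; `ht s s' i` is `s` or `s'`: `fin_cases i`; the
  determinant of a matrix with continuous entries, `Continuous.matrix_det`).
* `ori_swap`: `P i (θ + π/2) s (-x) a = P (i+1) θ x s a` (`Fam.rot`, `ht s s i = s`), so with `w' i = w (i + 1)` the matrix is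
  `(Mt P θ x s s w).submatrix (· + 1) id` and the determinant changes sign (`Matrix.det_permute'`, the sign of the
  4-cycle `finRotate 4` is `-1`, or `Matrix.det_succ_row_zero` / `decide`).
-/

open Set

namespace PT4

variable {P : Fin 4 → ℝ → ℝ → ℝ → (Fin 4 → ℝ) → ℝ} {R : ℝ}

namespace OrientAux

theorem ht_same (s : ℝ) (i : Fin 4) : ht s s i = s := by
  fin_cases i <;> rfl

theorem ht_cont (i : Fin 4) : Continuous fun p : ℝ × ℝ × ℝ × ℝ => ht p.2.2.1 p.2.2.2 i := by
  fin_cases i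
  · exact continuous_fst.comp (continuous_snd.comp continuous_snd)
  · exact continuous_snd.comp (continuous_snd.comp continuous_snd)
  · exact continuous_snd.comp (continuous_snd.comp continuous_snd)
  · exact continuous_fst.comp (continuous_snd.comp continuous_snd)

theorem P_cont (h : Fam P R) (i : Fin 4) (a : Fin 4 → ℝ) :
    Continuous fun p : ℝ × ℝ × ℝ × ℝ => P i p.1 p.2.1 (ht p.2.2.1 p.2.2.2 i) a := by
  have h1 : Continuous fun p : ℝ × ℝ × ℝ × ℝ =>
      ((p.1, p.2.1, ht p.2.2.1 p.2.2.2 i, a) : ℝ × ℝ × ℝ × (Fin 4 → ℝ)) :=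
    continuous_fst.prodMk ((continuous_fst.comp continuous_snd).prodMk
      ((ht_cont i).prodMk continuous_const))
  exact (h.cont i).comp h1

theorem P_cont' (h : Fam P R) (i : Fin 4) (θ x y : ℝ) : Continuous fun a => P i θ x y a := by
  have h1 : Continuous fun a : Fin 4 → ℝ => ((θ, x, y, a) : ℝ × ℝ × ℝ × (Fin 4 → ℝ)) :=
    continuous_const.prodMk (continuous_const.prodMk (continuous_const.prodMk continuous_id))
  exact (h.cont i).comp h1

theorem Bf_eq {i : Fin 4} {θ x y : ℝ} {β : (Fin 4 → ℝ) →ₗ[ℝ] (Fin 4 → ℝ) →ₗ[ℝ] ℝ}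
    (hs : ∀ a b, β a b = β b a) (hβ : ∀ a, P i θ x y a + P i θ x y (-a) = β a a)
    (a b : Fin 4 → ℝ) : Bf P i θ x y a b = β a b := by
  unfold Bf
  rw [hβ, hβ]
  simp only [map_add, map_sub, LinearMap.add_apply, LinearMap.sub_apply]
  rw [hs b a]
  ring

end OrientAux

open OrientAux

/-- the data of a double T without `Two` -/
theorem OrientAux.data (h : Fam P R) {θ x s s' : ℝ} (hno : ∀ i, ¬ Two P i θ x (ht s s' i)) :
    ∃ β : Fin 4 → (Fin 4 → ℝ) →ₗ[ℝ] (Fin 4 → ℝ) →ₗ[ℝ] ℝ,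
      (∀ i a b, β i a b = β i b a) ∧
      (∀ i a, P i θ x (ht s s' i) a + P i θ x (ht s s' i) (-a) = β i a a) ∧
      (∀ i w u, β i w w < 0 → β i u u < 0 → β i w u ≠ 0) ∧
      (∀ a, a ≠ 0 → ∑ i, β i a a < 0) ∧
      ∀ w, Mt P θ x s s' w = Matrix.of fun i j => β i (w i) (Pi.single j 1) := by
  have hq := fun i => h.quad i θ x (ht s s' i)
  choose β hs hβ using hq
  refine ⟨β, hs, hβ, ?_, ?_, ?_⟩
  · intro i w u h1 h2 h3
    exact idx (P_cont' h i θ x (ht s s' i)) (hs i) (hβ i) (hno i) h1 h2 h3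
  · intro a ha
    have := h.neg θ x s s' a ha
    simp only [hβ] at this
    exact this
  · intro w
    unfold Mt
    congr 1
    funext i j
    exact Bf_eq (hs i) (hβ i) _ _

theorem ori_cov (h : Fam P R) {θ x s s' : ℝ} (hno : ∀ i, ¬ Two P i θ x (ht s s' i)) :
    Ori P 1 θ x s s' ∨ Ori P (-1) θ x s s' := by
  obtain ⟨β, hs, hβ, hidx, hneg, hM⟩ := OrientAux.data h hno
  have hw : ∀ i, ∃ w, β i w w < 0 ∧ P i θ x (ht s s' i) w < 0 := by
    intro i
    obtain ⟨w, hw⟩ := exists_neg hidx hneg i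
    have h1 := hβ i w
    by_cases h2 : P i θ x (ht s s' i) w < 0
    · exact ⟨w, hw, h2⟩
    · refine ⟨-w, ?_, ?_⟩
      · simpa using hw
      · linarith [not_lt.1 h2]
  choose w hw1 hw2 using hw
  have hval : Val P θ x s s' w := fun i => ⟨by rw [hβ]; exact hw1 i, hw2 i⟩
  have hdet := indep hidx hneg (w := w) (fun i => Or.inl (hw1 i))
  rw [← hM w] at hdet
  rcases lt_or_gt_of_ne hdet with h3 | h3
  · exact Or.inr ⟨w, hval, by linarith⟩
  · exact Or.inl ⟨w, hval, by linarith⟩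

theorem ori_dis (h : Fam P R) {θ x s s' : ℝ} (hno : ∀ i, ¬ Two P i θ x (ht s s' i)) :
    ¬ (Ori P 1 θ x s s' ∧ Ori P (-1) θ x s s') := by
  rintro ⟨⟨w, hw, hd⟩, ⟨w', hw', hd'⟩⟩
  obtain ⟨β, hs, hβ, hidx, hneg, hM⟩ := OrientAux.data h hno
  have b1 : ∀ i, β i (w i) (w i) < 0 := fun i => by rw [← hβ]; exact (hw i).1
  have b2 : ∀ i, β i (w' i) (w' i) < 0 := fun i => by rw [← hβ]; exact (hw' i).1
  have b3 : ∀ i, β i (w i) (w' i) < 0 := fun i =>
    cone (P_cont' h i θ x (ht s s' i)) (hs i) (hβ i) (hno i) (b1 i) (hw i).2 (b2 i) (hw' i).2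
  set wt : ℝ → Fin 4 → Fin 4 → ℝ := fun t i => (1 - t) • w i + t • w' i with hwt
  have hbt : ∀ t ∈ Icc (0 : ℝ) 1, ∀ i, β i (wt t i) (wt t i) < 0 := by
    intro t ht i
    have e : β i (wt t i) (wt t i) = (1 - t) ^ 2 * β i (w i) (w i) +
        2 * (t * (1 - t)) * β i (w i) (w' i) + t ^ 2 * β i (w' i) (w' i) := by
      simp only [hwt, map_add, map_smul, LinearMap.add_apply, LinearMap.smul_apply, smul_eq_mul]
      rw [hs i (w' i) (w i)]
      ring
    rw [e]
    have h1 : 0 ≤ t * (1 - t) := mul_nonneg ht.1 (by linarith [ht.2])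
    have h2 : 2 * (t * (1 - t)) * β i (w i) (w' i) ≤ 0 :=
      mul_nonpos_of_nonneg_of_nonpos (by linarith) (b3 i).le
    by_cases h0 : t = 0
    · rw [h0]
      have := b1 i
      norm_num
      exact this
    · have h3 : 0 < t ^ 2 := by positivity
      have h4 : t ^ 2 * β i (w' i) (w' i) < 0 := mul_neg_of_pos_of_neg h3 (b2 i)
      have h5 : (1 - t) ^ 2 * β i (w i) (w i) ≤ 0 :=
        mul_nonpos_of_nonneg_of_nonpos (sq_nonneg _) (b1 i).le
      linarith
  have hne : ∀ t ∈ Icc (0 : ℝ) 1, (Mt P θ x s s' (wt t)).det ≠ 0 := by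
    intro t ht
    rw [hM]
    exact indep hidx hneg (fun i => Or.inl (hbt t ht i))
  have hcont : Continuous fun t => (Mt P θ x s s' (wt t)).det := by
    simp only [hM]
    refine Continuous.matrix_det (continuous_matrix fun i j => ?_)
    simp only [Matrix.of_apply, hwt, map_add, map_smul, LinearMap.add_apply,
      LinearMap.smul_apply, smul_eq_mul]
    fun_prop
  have h0 : wt 0 = w := by
    funext i
    simp [hwt]
  have h1 : wt 1 = w' := by
    funext i
    simp [hwt]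
  have hiv := intermediate_value_Icc' (zero_le_one (α := ℝ)) hcont.continuousOn
  have hmem : (0 : ℝ) ∈ Icc ((Mt P θ x s s' (wt 1)).det) ((Mt P θ x s s' (wt 0)).det) := by
    rw [h0, h1]
    constructor <;> linarith
  obtain ⟨t, ht, hte⟩ := hiv hmem
  exact hne t ht hte

theorem ori_open (h : Fam P R) (σ : ℝ) :
    IsOpen {p : ℝ × ℝ × ℝ × ℝ | Ori P σ p.1 p.2.1 p.2.2.1 p.2.2.2} := by
  have e : {p : ℝ × ℝ × ℝ × ℝ | Ori P σ p.1 p.2.1 p.2.2.1 p.2.2.2} =
      ⋃ w : Fin 4 → Fin 4 → ℝ, ((⋂ i : Fin 4,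
        ({p : ℝ × ℝ × ℝ × ℝ | P i p.1 p.2.1 (ht p.2.2.1 p.2.2.2 i) (w i) +
            P i p.1 p.2.1 (ht p.2.2.1 p.2.2.2 i) (-(w i)) < 0} ∩
          {p : ℝ × ℝ × ℝ × ℝ | P i p.1 p.2.1 (ht p.2.2.1 p.2.2.2 i) (w i) < 0})) ∩
        {p : ℝ × ℝ × ℝ × ℝ | 0 < σ * (Mt P p.1 p.2.1 p.2.2.1 p.2.2.2 w).det}) := by
    ext p
    simp only [Ori, Val, mem_ofPred_eq, mem_iUnion, mem_inter_iff, mem_iInter]
  rw [e]
  refine isOpen_iUnion fun w => ?_
  refine IsOpen.inter (isOpen_iInter_of_finite fun i => ?_) ?_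
  · exact (isOpen_lt ((P_cont h i _).add (P_cont h i _)) continuous_const).inter
      (isOpen_lt (P_cont h i _) continuous_const)
  · refine isOpen_lt continuous_const (continuous_const.mul ?_)
    refine Continuous.matrix_det (continuous_matrix fun i j => ?_)
    simp only [Mt, Matrix.of_apply, Bf]
    exact (((P_cont h i _).add (P_cont h i _)).sub
      ((P_cont h i _).add (P_cont h i _))).div_const _

theorem ori_swap (h : Fam P R) {σ θ x s : ℝ} (h1 : Ori P σ θ x s s) :
    Ori P (-σ) (θ + Real.pi / 2) s (-x) (-x) := by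
  obtain ⟨w, hw, hd⟩ := h1
  have hr : ∀ i a, P i (θ + Real.pi / 2) s (-x) a = P (i + 1) θ x s a := by
    intro i a
    rw [h.rot, neg_neg]
  refine ⟨fun i => w (i + 1), ?_, ?_⟩
  · intro i
    have := hw (i + 1)
    rw [ht_same] at this
    rw [ht_same, hr, hr]
    exact this
  · have e : Mt P (θ + Real.pi / 2) s (-x) (-x) (fun i => w (i + 1)) =
        (Mt P θ x s s w).submatrix (finRotate 4) id := by
      ext i j
      simp only [Mt, Matrix.of_apply, Matrix.submatrix_apply, id, Bf, ht_same, hr]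
      rw [finRotate_apply]
    rw [e, Matrix.det_permute, sign_finRotate]
    norm_num
    linarith

end PT4
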