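import Pool.Agent.Lib.PT4.Comb
import Pool.Agent.Lib.PT4.Orient

/-!
Module PT4.Dbl: there is a double T whose four quadrants are in `Hull`.

`comb` with `A = Hull P`, `Dp = Ori P 1`, `Dm = Ori P (-1)`.
* monotonicity: `sx`, `sy` are `±1` (`simp [Hull, sx]`, `linarith`).  Openness: if `(x', y')` is a witness for `(θ, x, y)` then
  `(x' + (x1 - x), y' + (y1 - y))` is one for `(θ1, x1, y1)` near `(θ, x, y)`, as `{p | P i p < 0}` is open (`Fam.cont`), with the same `a`.
* `hrot`: `(x', y') ↦ (-y', x')`, `sx (i+1) = - sy i`, `sy (i+1) = sx i` (`fin_cases i`).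
* `hb0`: if `R ≤ x`, a witness has `R ≤ x'`, so `P 0 = 0`, `P 3 = 0` there (`Fam.right`); the same for the other three.
* `¬ Hull i` implies `¬ Two i` (witness `x' = x`, `y' = y`), so `ori_cov`, `ori_dis` apply (`ht s s' i`: `fin_cases i`).
* `hsw`: `ori_swap` with `σ = 1`, `hsw'` with `σ = -1` (`neg_neg`).
-/

open Set

namespace PT4

namespace DblAux

variable {P : Fin 4 → ℝ → ℝ → ℝ → (Fin 4 → ℝ) → ℝ} {R : ℝ}

theorem sx_succ (i : Fin 4) : sx (i + 1) = -sy i := by
  fin_cases i <;> simp [sx, sy]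

theorem sy_succ (i : Fin 4) : sy (i + 1) = sx i := by
  fin_cases i <;> simp [sx, sy]

theorem hull_open (h : Fam P R) (i : Fin 4) :
    IsOpen {p : ℝ × ℝ × ℝ | Hull P i p.1 p.2.1 p.2.2} := by
  have h1 : {p : ℝ × ℝ × ℝ | Hull P i p.1 p.2.1 p.2.2} =
      ⋃ (u : ℝ) (v : ℝ) (a : Fin 4 → ℝ) (_ : 0 ≤ sx i * u) (_ : 0 ≤ sy i * v),
        {p : ℝ × ℝ × ℝ | P i p.1 (p.2.1 + u) (p.2.2 + v) a < 0 ∧
          P i p.1 (p.2.1 + u) (p.2.2 + v) (-a) < 0} := by
    ext p
    simp only [mem_iUnion]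
    constructor
    · rintro ⟨x', y', hx, hy, a, ha, ha'⟩
      refine ⟨x' - p.2.1, y' - p.2.2, a, hx, hy, ?_, ?_⟩
      · show P i p.1 (p.2.1 + (x' - p.2.1)) (p.2.2 + (y' - p.2.2)) a < 0
        rw [add_sub_cancel, add_sub_cancel]
        exact ha
      · show P i p.1 (p.2.1 + (x' - p.2.1)) (p.2.2 + (y' - p.2.2)) (-a) < 0
        rw [add_sub_cancel, add_sub_cancel]
        exact ha'
    · rintro ⟨u, v, a, hu, hv, ha, ha'⟩
      refine ⟨p.2.1 + u, p.2.2 + v, ?_, ?_, a, ha, ha'⟩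
      · rw [add_sub_cancel_left]
        exact hu
      · rw [add_sub_cancel_left]
        exact hv
  rw [h1]
  have h2 : ∀ (u v : ℝ) (a : Fin 4 → ℝ),
      Continuous fun p : ℝ × ℝ × ℝ => P i p.1 (p.2.1 + u) (p.2.2 + v) a := by
    intro u v a
    have h3 : Continuous fun p : ℝ × ℝ × ℝ =>
        ((p.1, p.2.1 + u, p.2.2 + v, a) : ℝ × ℝ × ℝ × (Fin 4 → ℝ)) := by
      fun_prop
    exact (h.cont i).comp h3
  refine isOpen_iUnion fun u => isOpen_iUnion fun v => isOpen_iUnion fun a =>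
    isOpen_iUnion fun _ => isOpen_iUnion fun _ => ?_
  exact (isOpen_lt (h2 u v a) continuous_const).inter (isOpen_lt (h2 u v (-a)) continuous_const)

theorem hull_rot (h : Fam P R) (i : Fin 4) (θ x y : ℝ) :
    Hull P i (θ + Real.pi / 2) x y ↔ Hull P (i + 1) θ (-y) x := by
  constructor
  · rintro ⟨x', y', hx, hy, a, ha, ha'⟩
    rw [h.rot] at ha ha'
    refine ⟨-y', x', ?_, ?_, a, ha, ha'⟩
    · rw [sx_succ]
      have h1 : -sy i * (-y' - -y) = sy i * (y' - y) := by ring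
      rw [h1]
      exact hy
    · rw [sy_succ]
      exact hx
  · rintro ⟨u, v, hu, hv, a, ha, ha'⟩
    rw [sx_succ] at hu
    rw [sy_succ] at hv
    refine ⟨v, -u, hv, ?_, a, ?_, ?_⟩
    · have h1 : sy i * (-u - y) = -sy i * (u - -y) := by ring
      rw [h1]
      exact hu
    · rw [h.rot, neg_neg]
      exact ha
    · rw [h.rot, neg_neg]
      exact ha'

theorem hull_mono (i : Fin 4) (θ x y x1 y1 : ℝ) (hx : 0 ≤ sx i * (x - x1))
    (hy : 0 ≤ sy i * (y - y1)) (hH : Hull P i θ x y) : Hull P i θ x1 y1 := by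
  obtain ⟨x', y', hx', hy', hT⟩ := hH
  refine ⟨x', y', ?_, ?_, hT⟩
  · have h1 : sx i * (x' - x1) = sx i * (x' - x) + sx i * (x - x1) := by ring
    rw [h1]
    exact add_nonneg hx' hx
  · have h1 : sy i * (y' - y1) = sy i * (y' - y) + sy i * (y - y1) := by ring
    rw [h1]
    exact add_nonneg hy' hy

theorem two_hull (i : Fin 4) (θ x y : ℝ) (hT : Two P i θ x y) : Hull P i θ x y :=
  ⟨x, y, by rw [sub_self, mul_zero], by rw [sub_self, mul_zero], hT⟩

theorem no_two {θ x s s' : ℝ} (h0 : ¬ Hull P 0 θ x s) (h3 : ¬ Hull P 3 θ x s)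
    (h1 : ¬ Hull P 1 θ x s') (h2 : ¬ Hull P 2 θ x s') : ∀ i, ¬ Two P i θ x (ht s s' i) := by
  intro i hT
  have hH := two_hull i θ x (ht s s' i) hT
  fin_cases i
  · exact h0 hH
  · exact h1 hH
  · exact h2 hH
  · exact h3 hH

end DblAux

open DblAux

theorem dbl {P : Fin 4 → ℝ → ℝ → ℝ → (Fin 4 → ℝ) → ℝ} {R : ℝ} (hR : 0 < R) (h : Fam P R) :
    ∃ θ x s s', ∀ i, Hull P i θ x (ht s s' i) := by
  have hx0 : sx 0 = 1 := rfl
  have hx1 : sx 1 = -1 := rfl
  have hx2 : sx 2 = -1 := rfl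
  have hx3 : sx 3 = 1 := rfl
  have hy0 : sy 0 = 1 := rfl
  have hy1 : sy 1 = 1 := rfl
  have hy2 : sy 2 = -1 := rfl
  have hy3 : sy 3 = -1 := rfl
  obtain ⟨θ, x, s, s', h0, h3, h1, h2⟩ := comb hR (fun i θ x y => Hull P i θ x y)
    (fun i => hull_open h i)
    (fun θ x y x' y' hx hy hH => hull_mono 0 θ x y x' y' (by rw [hx0]; linarith)
      (by rw [hy0]; linarith) hH)
    (fun θ x y x' y' hx hy hH => hull_mono 1 θ x y x' y' (by rw [hx1]; linarith)
      (by rw [hy1]; linarith) hH)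
    (fun θ x y x' y' hx hy hH => hull_mono 2 θ x y x' y' (by rw [hx2]; linarith)
      (by rw [hy2]; linarith) hH)
    (fun θ x y x' y' hx hy hH => hull_mono 3 θ x y x' y' (by rw [hx3]; linarith)
      (by rw [hy3]; linarith) hH)
    (fun i θ x y => hull_rot h i θ x y)
    (by
      intro θ x y hx
      constructor
      · rintro ⟨x', y', hx', _, a, ha, _⟩
        rw [hx0] at hx'
        rw [(h.right θ x' y' a (by linarith)).1] at ha
        exact lt_irrefl _ ha
      · rintro ⟨x', y', hx', _, a, ha, _⟩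
        rw [hx3] at hx'
        rw [(h.right θ x' y' a (by linarith)).2] at ha
        exact lt_irrefl _ ha)
    (by
      intro θ x y hx
      constructor
      · rintro ⟨x', y', hx', _, a, ha, _⟩
        rw [hx1] at hx'
        rw [(h.left θ x' y' a (by linarith)).1] at ha
        exact lt_irrefl _ ha
      · rintro ⟨x', y', hx', _, a, ha, _⟩
        rw [hx2] at hx'
        rw [(h.left θ x' y' a (by linarith)).2] at ha
        exact lt_irrefl _ ha)
    (by
      intro θ x y hy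
      constructor
      · rintro ⟨x', y', _, hy', a, ha, _⟩
        rw [hy0] at hy'
        rw [(h.up θ x' y' a (by linarith)).1] at ha
        exact lt_irrefl _ ha
      · rintro ⟨x', y', _, hy', a, ha, _⟩
        rw [hy1] at hy'
        rw [(h.up θ x' y' a (by linarith)).2] at ha
        exact lt_irrefl _ ha)
    (by
      intro θ x y hy
      constructor
      · rintro ⟨x', y', _, hy', a, ha, _⟩
        rw [hy2] at hy'
        rw [(h.down θ x' y' a (by linarith)).1] at ha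
        exact lt_irrefl _ ha
      · rintro ⟨x', y', _, hy', a, ha, _⟩
        rw [hy3] at hy'
        rw [(h.down θ x' y' a (by linarith)).2] at ha
        exact lt_irrefl _ ha)
    (Ori P 1) (Ori P (-1)) (ori_open h 1) (ori_open h (-1))
    (fun θ x s s' h0 h3 h1 h2 => ori_cov h (no_two h0 h3 h1 h2))
    (fun θ x s s' h0 h3 h1 h2 => ori_dis h (no_two h0 h3 h1 h2))
    (fun θ x s h1 => ori_swap h h1)
    (fun θ x s h1 => by
      have h2 := ori_swap h h1
      rwa [neg_neg] at h2)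
  refine ⟨θ, x, s, s', fun i => ?_⟩
  fin_cases i
  · exact h0
  · exact h1
  · exact h2
  · exact h3

end PT4
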