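import Pool.Agent.Lib.PL4.Defs
import Pool.Agent.Lib.DK4.ContE

/-!
# PT4 : `λ₄(Ω) |Ω| ≥ 3 π j01²` for every open set `Ω` of finite area

THEOREM.  `3 π j01² ≤ dirEig 4 Ω * |Ω|` for every nonempty open `Ω ⊂ ℂ` of finite area.

A DOUBLE T `(θ, x, s, s')` is the line `{re = x}` in the frame turned by `θ`, with a perpendicular half line on
the right at the height `s` and one on the left at the height `s'`.  It has four quadrants `0` (right, up),
`1` (left, up), `2` (left, down), `3` (right, down), with corners `(x, s)`, `(x, s')`, `(x, s')`, `(x, s)`.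
`v : Fin 4 → ℂ → ℝ` test functions with `q Λ (uc v a) < 0` for `a ≠ 0`.  `P i θ x y a` is the energy of the
positive part of `u_a = uc v a` on the quadrant `i` with corner `(x, y)`, so `P a + P (-a)` is the energy of `u_a`.
`Two i θ x y`: there is `a` with `P a < 0` and `P (-a) < 0`.  Then (PL4.Cell, `quad2`) the quadrant contains the area
`(3/4) π j01²/Λ` of `Ω`.  `Hull i`: a smaller quadrant has `Two i`.

CLAIM.  There is a double T whose four quadrants have `Hull`.  (Then `Λ |Ω| ≥ 3 π j01²`.)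

PROOF.  Suppose not.  `K` = the set of the double Ts with none of the four quadrants in `Hull`, in the box of size `R`.
(1) `K` is closed and connected, over every direction `θ` there is a point of `K` (monotonicity of `Hull`; Comb, Conn).
(2) For a double T in `K` the four quadratic forms `q_i = P + P(-)` have index at most one and their sum is negative
    definite on `ℝ⁴`.  If `q_i (w_i) < 0` then the four linear forms `b_i (w_i, ·)` are independent.  If also `P (w_i) < 0`
    (`w_i` is 'positive') then the sign of their determinant does not depend on the choice of `w_i` and is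
    locally constant, so it is constant on `K` (Orient).
(3) If `s = s'` (a cross) for a double T in `K`, the same cross in the frame `θ + π/2` is in `K`, and the four rows are
    permuted by a 4-cycle: the sign changes.  Contradiction.  So there is no cross in `K`.
(4) So `s - s'` has constant sign on `K`.  A double T in the direction `θ`, one in the direction `θ + π/2`, of the same
    type, and the fact that every point is in one of the four sets `Hull i`: contradiction (Plane).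
-/

open MeasureTheory Set
open scoped ContDiff

namespace PT4

open DK4 PL4

/-- the signs of the four quadrants, counterclockwise -/
def sx : Fin 4 → ℝ := ![1, -1, -1, 1]

/-- the signs of the four quadrants, counterclockwise -/
def sy : Fin 4 → ℝ := ![1, 1, -1, -1]

/-- the quadrant `i` with corner `(x, y)` in the frame turned by `θ` -/
def Qr (i : Fin 4) (θ x y : ℝ) : Set ℂ :=
  {z | Complex.exp (-(θ : ℂ) * Complex.I) * z ∈ Qd x y (sx i) (sy i)}

/-- the energy of the positive part of `uc v a` on the quadrant `i` -/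
noncomputable def PE (Λ : ℝ) (v : Fin 4 → ℂ → ℝ) (i : Fin 4) (θ x y : ℝ) (a : Fin 4 → ℝ) : ℝ :=
  ∫ z in Qr i θ x y, den Λ (fun z => max (uc v a z) 0) z

/-- the heights of the corners of the quadrants of a double T -/
def ht (s s' : ℝ) : Fin 4 → ℝ := ![s, s', s', s]

/-- the properties of `PE` which are used -/
structure Fam (P : Fin 4 → ℝ → ℝ → ℝ → (Fin 4 → ℝ) → ℝ) (R : ℝ) : Prop where
  cont : ∀ i, Continuous fun p : ℝ × ℝ × ℝ × (Fin 4 → ℝ) => P i p.1 p.2.1 p.2.2.1 p.2.2.2
  quad : ∀ i θ x y, ∃ β : (Fin 4 → ℝ) →ₗ[ℝ] (Fin 4 → ℝ) →ₗ[ℝ] ℝ,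
    (∀ a b, β a b = β b a) ∧ ∀ a, P i θ x y a + P i θ x y (-a) = β a a
  neg : ∀ θ x s s' a, a ≠ 0 →
    ∑ i, (P i θ x (ht s s' i) a + P i θ x (ht s s' i) (-a)) < 0
  rot : ∀ i θ x y a, P i (θ + Real.pi / 2) x y a = P (i + 1) θ (-y) x a
  right : ∀ θ x y a, R ≤ x → P 0 θ x y a = 0 ∧ P 3 θ x y a = 0
  left : ∀ θ x y a, x ≤ -R → P 1 θ x y a = 0 ∧ P 2 θ x y a = 0
  up : ∀ θ x y a, R ≤ y → P 0 θ x y a = 0 ∧ P 1 θ x y a = 0
  down : ∀ θ x y a, y ≤ -R → P 2 θ x y a = 0 ∧ P 3 θ x y a = 0

/-- two disjoint pieces of negative energy -/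
def Two (P : Fin 4 → ℝ → ℝ → ℝ → (Fin 4 → ℝ) → ℝ) (i : Fin 4) (θ x y : ℝ) : Prop :=
  ∃ a, P i θ x y a < 0 ∧ P i θ x y (-a) < 0

/-- a smaller quadrant has two disjoint pieces of negative energy -/
def Hull (P : Fin 4 → ℝ → ℝ → ℝ → (Fin 4 → ℝ) → ℝ) (i : Fin 4) (θ x y : ℝ) : Prop :=
  ∃ x' y', 0 ≤ sx i * (x' - x) ∧ 0 ≤ sy i * (y' - y) ∧ Two P i θ x' y'

/-- the polar form of `P a + P (-a)` -/
noncomputable def Bf (P : Fin 4 → ℝ → ℝ → ℝ → (Fin 4 → ℝ) → ℝ) (i : Fin 4) (θ x y : ℝ)
    (a b : Fin 4 → ℝ) : ℝ :=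
  ((P i θ x y (a + b) + P i θ x y (-(a + b))) -
    (P i θ x y (a - b) + P i θ x y (-(a - b)))) / 4

/-- the matrix of the four linear forms `b_i (w_i, ·)` -/
noncomputable def Mt (P : Fin 4 → ℝ → ℝ → ℝ → (Fin 4 → ℝ) → ℝ) (θ x s s' : ℝ)
    (w : Fin 4 → Fin 4 → ℝ) : Matrix (Fin 4) (Fin 4) ℝ :=
  Matrix.of fun i j => Bf P i θ x (ht s s' i) (w i) (Pi.single j 1)

/-- `w i` has negative energy on the quadrant `i` and is positive there -/
def Val (P : Fin 4 → ℝ → ℝ → ℝ → (Fin 4 → ℝ) → ℝ) (θ x s s' : ℝ)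
    (w : Fin 4 → Fin 4 → ℝ) : Prop :=
  ∀ i, P i θ x (ht s s' i) (w i) + P i θ x (ht s s' i) (-(w i)) < 0 ∧
    P i θ x (ht s s' i) (w i) < 0

/-- orientation `+` (`σ = 1`) or `-` (`σ = -1`) -/
def Ori (P : Fin 4 → ℝ → ℝ → ℝ → (Fin 4 → ℝ) → ℝ) (σ θ x s s' : ℝ) : Prop :=
  ∃ w, Val P θ x s s' w ∧ 0 < σ * (Mt P θ x s s' w).det

end PT4
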