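import Pool.Agent.Lib.PT4.Dbl
import Pool.Agent.Lib.PT4.Ana
import Pool.Agent.Lib.PT4.Area
import Pool.Agent.Lib.PL4.Main

/-!
Module PT4.Main: the theorem.

`main3`: `fam`, `dbl`, `area` for the four quadrants of the double T, which are disjoint and measurable
(`volume.real` of a finite disjoint union; as in PL4.Main.real_two).
`eig3`: copy the proof of `PL4.eig4` with `main3` in the place of `main4`.
-/

open MeasureTheory Set
open scoped ContDiff

namespace PT4

open DK4 PL4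

namespace MainAux

theorem isOpen_Qr (i : Fin 4) (θ x y : ℝ) : IsOpen (Qr i θ x y) :=
  (PL4.MainAux.isOpen_Qd x y (sx i) (sy i)).preimage (continuous_const.mul continuous_id)

theorem mem_Qr {i : Fin 4} {θ x y : ℝ} {z : ℂ} (h : z ∈ Qr i θ x y) :
    0 < sx i * ((Complex.exp (-(θ : ℂ) * Complex.I) * z).re - x) ∧
      0 < sy i * ((Complex.exp (-(θ : ℂ) * Complex.I) * z).im - y) := h

theorem disj (i j : Fin 4) (hij : i ≠ j) (θ x s s' : ℝ) :
    Disjoint (Qr i θ x (ht s s' i)) (Qr j θ x (ht s s' j)) := by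
  rw [Set.disjoint_left]
  intro z h1 h2
  obtain ⟨h3, h4⟩ := mem_Qr h1
  obtain ⟨h5, h6⟩ := mem_Qr h2
  fin_cases i <;> fin_cases j <;> simp [sx, sy, ht] at hij h3 h4 h5 h6 <;> linarith

end MainAux

open MainAux

theorem main3 {Ω : Set ℂ} (hΩ : IsOpen Ω) (hfin : volume Ω ≠ ⊤) {Λ : ℝ} (hΛ : 0 ≤ Λ)
    (h : NegT Ω Λ 4 univ) : 3 * (Real.pi * j01 ^ 2) ≤ Λ * volume.real Ω := by
  obtain ⟨v, hv, hneg⟩ := h
  obtain ⟨R, hR, hF⟩ := fam hv hneg
  obtain ⟨θ, x, s, s', hH⟩ := dbl hR hF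
  have ha : ∀ i, 3 / 4 * (Real.pi * j01 ^ 2) ≤
      Λ * volume.real (Ω ∩ Qr i θ x (ht s s' i)) := fun i => area hfin hΛ hv (hH i)
  have hsum : ∑ i, volume.real (Ω ∩ Qr i θ x (ht s s' i)) ≤ volume.real Ω := by
    rw [← measureReal_biUnion_finset (s := Finset.univ)
      (f := fun i => Ω ∩ Qr i θ x (ht s s' i))]
    · apply measureReal_mono _ hfin
      intro z hz
      simp only [mem_iUnion] at hz
      obtain ⟨i, -, hi, -⟩ := hz
      exact hi
    · intro i _ j _ hij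
      exact (disj i j hij θ x s s').mono inter_subset_right inter_subset_right
    · intro i _
      exact (hΩ.inter (isOpen_Qr i θ x (ht s s' i))).measurableSet
  have h1 := Finset.sum_le_sum fun i (_ : i ∈ (Finset.univ : Finset (Fin 4))) => ha i
  rw [Finset.sum_const, Finset.card_univ, Fintype.card_fin, nsmul_eq_mul] at h1
  have h2 := mul_le_mul_of_nonneg_left hsum hΛ
  rw [Finset.mul_sum] at h2
  push_cast at h1
  linarith

theorem eig3 {Ω : Set ℂ} (hΩ : IsOpen Ω) (hne : Ω.Nonempty) (hfin : volume Ω ≠ ⊤) :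
    3 * (Real.pi * j01 ^ 2) ≤ dirEig 4 Ω * volume.real Ω := by
  have hpos : 0 < volume.real Ω := by
    unfold Measure.real
    exact ENNReal.toReal_pos (hΩ.measure_pos volume hne).ne' hfin
  rw [← div_le_iff₀ hpos]
  unfold dirEig
  apply le_csInf (exists_space 4 hΩ hne)
  rintro Λ ⟨V, hV, hVt, hq⟩
  rw [div_le_iff₀ hpos]
  by_contra hcon
  rw [not_le] at hcon
  obtain ⟨Λ', h1, h2⟩ : ∃ Λ', Λ < Λ' ∧ Λ' * volume.real Ω < 3 * (Real.pi * j01 ^ 2) := by
    obtain ⟨Λ', h1, h2⟩ := exists_between ((lt_div_iff₀ hpos).2 hcon)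
    exact ⟨Λ', h1, by rwa [lt_div_iff₀ hpos] at h2⟩
  have hneg : ∀ u ∈ V, u ≠ 0 → q Λ' u < 0 := by
    intro u hu hne'
    have h3 := hq u hu
    have h4 := integral_sq_pos (hVt u hu) hne'
    unfold q
    nlinarith
  have hT := negT_of_space V hV hVt hneg
  have hΛ0 : 0 ≤ Λ := by
    by_contra hc
    rw [not_le] at hc
    have : Module.Finite ℝ V := Module.finite_of_finrank_pos (by omega)
    obtain ⟨v, hv⟩ := Module.finrank_pos_iff_exists_ne_zero.1 (show 0 < Module.finrank ℝ V by omega)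
    have hv' : (v : ℂ → ℝ) ≠ 0 := fun h => hv (Subtype.ext h)
    have h3 := hq v v.2
    have h4 := integral_sq_pos (hVt v v.2) hv'
    have h5 : 0 ≤ ∫ z, ‖fderiv ℝ (v : ℂ → ℝ) z‖ ^ 2 := integral_nonneg fun z => by positivity
    nlinarith
  have h6 := main3 hΩ hfin (hΛ0.trans h1.le) hT
  linarith

end PT4
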