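import Pool.Agent.Lib.PT4.Defs

/-!
Module PT4.Path: the sign trick for one quadratic form, and four quadratic forms with index one.

`p : (Fin 4 → ℝ) → ℝ` continuous, `p a + p (-a) = β a a`, and there is no `a` with `p a < 0` and `p (-a) < 0`.
* `path`: a continuous `c : ℝ → (Fin 4 → ℝ)` with `β (c t) (c t) < 0` on `[0, 1]`, `p (c 0) < 0`, `p (-(c 1)) < 0` does not
  exist: the sets `{t ∈ [0, 1] | p (c t) < 0}`, `{t ∈ [0, 1] | p (-(c t)) < 0}` are open, cover `[0, 1]`, are not empty, so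
  they meet (`isPreconnected_Icc`).
* `idx`: `β w w < 0`, `β u u < 0`, `β w u = 0` is impossible: `w` or `-w` has `p < 0`; say `p w < 0`; path
  `cos (π t) w + sin (π t) u` from `w` to `-w`.
* `cone`: `β w w < 0`, `p w < 0`, `β w' w' < 0`, `p w' < 0` imply `β w w' < 0`: otherwise the path `(1 - t) w - t w'`.
* `indep`: four forms `β i` without a pair as in `idx`, with `∑ i, β i a a < 0` for `a ≠ 0`, and `w i` with `β i (w i) (w i) < 0`
  or `w i = 0` and `β i` nonnegative: if `u` satisfies `β i (w i) u = 0` for all `i` then `u = 0` (otherwise `β i u u ≥ 0` for all `i`).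
  So the matrix `β i (w i) (e_j)` has nonzero determinant (`Matrix.exists_mulVec_eq_zero_iff`).
* `exists_neg`: for every `i` there is `w` with `β i w w < 0`: otherwise choose `w i` as in `indep` (`w i = 0` if there is no
  negative vector); a row of the matrix is zero and the determinant is zero, contradiction.
-/

open Set

namespace PT4

theorem path {p : (Fin 4 → ℝ) → ℝ} (hp : Continuous p) {β : (Fin 4 → ℝ) →ₗ[ℝ] (Fin 4 → ℝ) →ₗ[ℝ] ℝ}
    (hβ : ∀ a, p a + p (-a) = β a a) (hno : ¬ ∃ a, p a < 0 ∧ p (-a) < 0)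
    {c : ℝ → Fin 4 → ℝ} (hc : Continuous c) (hneg : ∀ t ∈ Icc (0 : ℝ) 1, β (c t) (c t) < 0)
    (h0 : p (c 0) < 0) (h1 : p (-(c 1)) < 0) : False := by
  have hU : IsOpen {t : ℝ | p (c t) < 0} := isOpen_lt (hp.comp hc) continuous_const
  have hV : IsOpen {t : ℝ | p (-(c t)) < 0} := isOpen_lt (hp.comp hc.neg) continuous_const
  have hcov : Icc (0 : ℝ) 1 ⊆ {t : ℝ | p (c t) < 0} ∪ {t : ℝ | p (-(c t)) < 0} := by
    intro t ht
    have h2 := hneg t ht
    have e := hβ (c t)
    by_cases h3 : p (c t) < 0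
    · exact Or.inl h3
    · right
      show p (-(c t)) < 0
      linarith [not_lt.1 h3]
  obtain ⟨t, -, ht1, ht2⟩ := isPreconnected_Icc _ _ hU hV hcov
    ⟨0, ⟨le_refl _, zero_le_one⟩, h0⟩ ⟨1, ⟨zero_le_one, le_refl _⟩, h1⟩
  exact hno ⟨c t, ht1, ht2⟩

theorem idx {p : (Fin 4 → ℝ) → ℝ} (hp : Continuous p) {β : (Fin 4 → ℝ) →ₗ[ℝ] (Fin 4 → ℝ) →ₗ[ℝ] ℝ}
    (hs : ∀ a b, β a b = β b a)
    (hβ : ∀ a, p a + p (-a) = β a a) (hno : ¬ ∃ a, p a < 0 ∧ p (-a) < 0)
    {w u : Fin 4 → ℝ} (h1 : β w w < 0) (h2 : β u u < 0) (h3 : β w u = 0) : False := by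
  have key : ∀ w : Fin 4 → ℝ, β w w < 0 → β w u = 0 → p w < 0 → False := by
    intro w h1 h3 hw
    refine path hp hβ hno (c := fun t => Real.cos (Real.pi * t) • w + Real.sin (Real.pi * t) • u)
      (by fun_prop) ?_ ?_ ?_
    · intro t _
      have e : β (Real.cos (Real.pi * t) • w + Real.sin (Real.pi * t) • u)
          (Real.cos (Real.pi * t) • w + Real.sin (Real.pi * t) • u) =
          Real.cos (Real.pi * t) ^ 2 * β w w + Real.sin (Real.pi * t) ^ 2 * β u u := by
        simp only [map_add, map_smul, LinearMap.add_apply, LinearMap.smul_apply, smul_eq_mul]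
        rw [hs u w, h3]
        ring
      rw [e]
      have h4 := Real.sin_sq_add_cos_sq (Real.pi * t)
      rcases eq_or_ne (Real.cos (Real.pi * t)) 0 with h5 | h5
      · rw [h5] at h4 ⊢
        have h6 : Real.sin (Real.pi * t) ^ 2 = 1 := by linarith
        rw [h6]
        linarith
      · have h6 : 0 < Real.cos (Real.pi * t) ^ 2 := by positivity
        nlinarith [sq_nonneg (Real.sin (Real.pi * t))]
    · simpa using hw
    · simpa using hw
  rcases lt_or_ge (p w) 0 with h4 | h4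
  · exact key w h1 h3 h4
  · refine key (-w) (by simpa using h1) (by simpa using h3) ?_
    have := hβ w
    linarith

theorem cone {p : (Fin 4 → ℝ) → ℝ} (hp : Continuous p) {β : (Fin 4 → ℝ) →ₗ[ℝ] (Fin 4 → ℝ) →ₗ[ℝ] ℝ}
    (hs : ∀ a b, β a b = β b a)
    (hβ : ∀ a, p a + p (-a) = β a a) (hno : ¬ ∃ a, p a < 0 ∧ p (-a) < 0)
    {w w' : Fin 4 → ℝ} (h1 : β w w < 0) (h2 : p w < 0) (h3 : β w' w' < 0) (h4 : p w' < 0) :
    β w w' < 0 := by
  by_contra hcon
  rw [not_lt] at hcon
  refine path hp hβ hno (c := fun t => (1 - t) • w - t • w') (by fun_prop) ?_ ?_ ?_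
  · intro t ht
    have e : β ((1 - t) • w - t • w') ((1 - t) • w - t • w') =
        (1 - t) ^ 2 * β w w - 2 * (t * (1 - t)) * β w w' + t ^ 2 * β w' w' := by
      simp only [map_sub, map_smul, LinearMap.sub_apply, LinearMap.smul_apply, smul_eq_mul]
      rw [hs w' w]
      ring
    rw [e]
    have h5 : 0 ≤ t * (1 - t) := mul_nonneg ht.1 (by linarith [ht.2])
    have h6 : 0 ≤ 2 * (t * (1 - t)) * β w w' := by positivity
    rcases eq_or_ne t 1 with h7 | h7
    · rw [h7]
      simpa using h3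
    · have h8 : 0 < (1 - t) ^ 2 := by
        have : 1 - t ≠ 0 := fun h => h7 (by linarith)
        positivity
      nlinarith [sq_nonneg t]
  · simpa using h2
  · simpa using h4

theorem indep {β : Fin 4 → (Fin 4 → ℝ) →ₗ[ℝ] (Fin 4 → ℝ) →ₗ[ℝ] ℝ}
    (hidx : ∀ i w u, β i w w < 0 → β i u u < 0 → β i w u ≠ 0)
    (hneg : ∀ a, a ≠ 0 → ∑ i, β i a a < 0) {w : Fin 4 → Fin 4 → ℝ}
    (hw : ∀ i, β i (w i) (w i) < 0 ∨ ∀ a, 0 ≤ β i a a) :
    (Matrix.of fun i j => β i (w i) (Pi.single j 1)).det ≠ 0 := by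
  intro hdet
  obtain ⟨u, hu, hMu⟩ := Matrix.exists_mulVec_eq_zero_iff.2 hdet
  have h1 : ∀ i, β i (w i) u = 0 := by
    intro i
    have h2 := congrFun hMu i
    have h3 : β i (w i) u = ∑ j, β i (w i) (Pi.single j 1) * u j := by
      conv_lhs => rw [← Finset.univ_sum_single u]
      rw [map_sum]
      refine Finset.sum_congr rfl fun j _ => ?_
      have h4 : (Pi.single j (u j) : Fin 4 → ℝ) = u j • (Pi.single j 1 : Fin 4 → ℝ) := by
        rw [← Pi.single_smul, smul_eq_mul, mul_one]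
      rw [h4, map_smul, smul_eq_mul, mul_comm]
    rw [h3]
    simpa [Matrix.mulVec, dotProduct] using h2
  have h2 : ∀ i, 0 ≤ β i u u := by
    intro i
    rcases hw i with h | h
    · by_contra hcon
      exact hidx i (w i) u h (not_le.1 hcon) (h1 i)
    · exact h u
  exact absurd (hneg u hu) (not_lt.2 (Finset.sum_nonneg fun i _ => h2 i))

open Classical in
theorem exists_neg {β : Fin 4 → (Fin 4 → ℝ) →ₗ[ℝ] (Fin 4 → ℝ) →ₗ[ℝ] ℝ}
    (hidx : ∀ i w u, β i w w < 0 → β i u u < 0 → β i w u ≠ 0)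
    (hneg : ∀ a, a ≠ 0 → ∑ i, β i a a < 0) (i : Fin 4) : ∃ w, β i w w < 0 := by
  by_contra hcon
  let w : Fin 4 → Fin 4 → ℝ := fun k => if h : ∃ w, β k w w < 0 then h.choose else 0
  have hw : ∀ k, β k (w k) (w k) < 0 ∨ ∀ a, 0 ≤ β k a a := by
    intro k
    by_cases h : ∃ w, β k w w < 0
    · left
      simp only [w, dif_pos h]
      exact h.choose_spec
    · right
      intro a
      exact not_lt.1 fun h' => h ⟨a, h'⟩
  refine indep hidx hneg hw ?_
  refine Matrix.det_eq_zero_of_row_eq_zero i fun j => ?_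
  have h1 : w i = 0 := by
    simp only [w]
    rw [dif_neg hcon]
  simp [h1]

end PT4
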